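import Pool.Agent.N804.GM.Stm

/-! # Project GM (helper804), part 1 (helper79): Jensen on the closed disc with one bad boundary point -/

set_option autoImplicit false

namespace Pool.Agent.N79.GM1

open Filter Topology Set MeasureTheory

theorem jens {F : ℂ → ℂ} {r : ℝ} (hr : 0 < r) (hF : AnalyticOnNhd ℂ F (Metric.closedBall 0 r))
    (h0 : F 0 ≠ 0) (S : Finset ℂ) (hS : ∀ w ∈ S, ‖w‖ < r ∧ F w = 0) :
    Real.log ‖F 0‖ + ∑ w ∈ S, (analyticOrderNatAt F w : ℝ) * Real.log (r / ‖w‖) ≤
      Real.circleAverage (fun z => Real.log ‖F z‖) 0 r := by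
  classical
  have har : |r| = r := abs_of_pos hr
  have hF' : AnalyticOnNhd ℂ F (Metric.closedBall 0 |r|) := by rw [har]; exact hF
  have h2 := AnalyticOnNhd.circleAverage_log_norm hr.ne' hF' h0
  rw [h2, add_comm]
  refine add_le_add_left ?_ _
  obtain ⟨g, hg⟩ : ∃ g : ℂ → ℝ, g = fun u =>
      ((MeromorphicOn.divisor F (Metric.closedBall 0 |r|) u : ℤ) : ℝ) *
        Real.log (r * ‖0 - u‖⁻¹) := ⟨_, rfl⟩
  have hgnn : ∀ u, 0 ≤ g u := by
    intro u
    rw [hg]
    have hd : 0 ≤ MeromorphicOn.divisor F (Metric.closedBall 0 |r|) :=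
      MeromorphicOn.AnalyticOnNhd.divisor_nonneg hF'
    have hdu : 0 ≤ MeromorphicOn.divisor F (Metric.closedBall 0 |r|) u := hd u
    by_cases hu : u ∈ Metric.closedBall (0 : ℂ) |r|
    · refine mul_nonneg (by exact_mod_cast hdu) ?_
      rw [har, mem_closedBall_zero_iff] at hu
      rw [zero_sub, norm_neg]
      rcases eq_or_ne u 0 with h4 | h4
      · rw [h4, norm_zero, inv_zero, mul_zero, Real.log_zero]
      · apply Real.log_nonneg
        rw [← div_eq_mul_inv, one_le_div (norm_pos_iff.2 h4)]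
        exact hu
    · simp only
      rw [Function.locallyFinsuppWithin.apply_eq_zero_of_notMem _ hu, Int.cast_zero, zero_mul]
  have hfin : (Function.support g).Finite := by
    refine ((MeromorphicOn.divisor F (Metric.closedBall 0 |r|)).finiteSupport
      (isCompact_closedBall 0 |r|)).subset ?_
    intro u hu
    rw [Function.mem_support] at hu ⊢
    intro h3
    apply hu
    rw [hg]
    simp only
    rw [h3, Int.cast_zero, zero_mul]
  have hsum : ∑ᶠ u, ((MeromorphicOn.divisor F (Metric.closedBall 0 |r|) u : ℤ) : ℝ) *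
      Real.log (r * ‖0 - u‖⁻¹) = ∑ u ∈ hfin.toFinset ∪ S, g u := by
    have h5 := finsum_eq_sum_of_support_subset g (s := hfin.toFinset ∪ S) (by
      intro u hu
      simp [hu])
    rw [← h5, hg]
  rw [hsum]
  have hle : ∑ w ∈ S, g w ≤ ∑ u ∈ hfin.toFinset ∪ S, g u :=
    Finset.sum_le_sum_of_subset_of_nonneg Finset.subset_union_right fun u _ _ => hgnn u
  refine le_trans (Finset.sum_le_sum fun w hw => ?_) hle
  obtain ⟨hw1, hw2⟩ := hS w hw
  have hwm : w ∈ Metric.closedBall (0 : ℂ) |r| := by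
    rw [har, mem_closedBall_zero_iff]; exact hw1.le
  rw [hg]
  simp only
  rw [MeromorphicOn.AnalyticOnNhd.divisor_apply hF' hwm, zero_sub, norm_neg, ← div_eq_mul_inv]
  have h6 : (((analyticOrderAt F w).map (fun n : ℕ => (n : ℤ))).untop₀ : ℤ) =
      (analyticOrderNatAt F w : ℤ) := by
    unfold analyticOrderNatAt
    cases h7 : analyticOrderAt F w with
    | top => rfl
    | coe n => rfl
  have h8 : ((((analyticOrderAt F w).map (fun n : ℕ => (n : ℤ))).untop₀ : ℤ) : ℝ) =
      (analyticOrderNatAt F w : ℝ) := by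
    rw [h6]; push_cast; rfl
  exact le_of_eq (congrArg (· * Real.log (r / ‖w‖)) h8.symm)

theorem avg_eq (g : ℂ → ℝ) (r : ℝ) : Real.circleAverage g 0 r =
    1 / (2 * Real.pi) * ∫ θ in (-Real.pi)..Real.pi, g (r * Complex.exp (θ * Complex.I)) := by
  rw [Real.circleAverage_eq_integral_add (-Real.pi),
    intervalIntegral.integral_comp_add_right (fun θ => g (circleMap 0 r θ)), smul_eq_mul, one_div]
  congr 1
  have e1 : (0 : ℝ) + -Real.pi = -Real.pi := by ring
  have e2 : 2 * Real.pi + -Real.pi = Real.pi := by ring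
  rw [e1, e2]
  congr 1
  ext θ
  simp [circleMap]

theorem fatou_log {μ : Measure ℝ} {G f : ℝ → ℝ} {fn : ℕ → ℝ → ℝ} {Ln : ℕ → ℝ} {L : ℝ}
    (hG : Integrable G μ) (hfn : ∀ n, Integrable (fn n) μ) (hf : AEMeasurable f μ)
    (h1 : ∀ n, ∀ᵐ x ∂μ, fn n x ≤ G x) (h2 : ∀ᵐ x ∂μ, f x ≤ G x)
    (h3 : ∀ᵐ x ∂μ, ENNReal.ofReal (G x - f x) ≤
      liminf (fun n => ENNReal.ofReal (G x - fn n x)) atTop)
    (hL : Tendsto Ln atTop (𝓝 L)) (h4 : ∀ n, Ln n ≤ ∫ x, fn n x ∂μ) :
    Integrable f μ ∧ L ≤ ∫ x, f x ∂μ := by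
  have hh0 : 0 ≤ᵐ[μ] fun x => G x - f x := by
    filter_upwards [h2] with x hx
    exact sub_nonneg.2 hx
  have hmeas : AEMeasurable (fun x => G x - f x) μ := hG.aemeasurable.sub hf
  have e1 : ∫⁻ x, ENNReal.ofReal (G x - f x) ∂μ ≤ ENNReal.ofReal (∫ x, G x ∂μ - L) := by
    calc ∫⁻ x, ENNReal.ofReal (G x - f x) ∂μ
        ≤ ∫⁻ x, liminf (fun n => ENNReal.ofReal (G x - fn n x)) atTop ∂μ := lintegral_mono_ae h3
      _ ≤ liminf (fun n => ∫⁻ x, ENNReal.ofReal (G x - fn n x) ∂μ) atTop :=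
          lintegral_liminf_le' (fun n => (hG.aemeasurable.sub (hfn n).aemeasurable).ennreal_ofReal)
      _ ≤ liminf (fun n => ENNReal.ofReal (∫ x, G x ∂μ - Ln n)) atTop := by
          refine liminf_le_liminf (Eventually.of_forall fun n => ?_)
          have e0 : ∫⁻ x, ENNReal.ofReal (G x - fn n x) ∂μ =
              ENNReal.ofReal (∫ x, (G x - fn n x) ∂μ) := by
            have hs : Integrable (fun x => G x - fn n x) μ := hG.sub (hfn n)
            rw [ofReal_integral_eq_lintegral_ofReal hs]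
            filter_upwards [h1 n] with x hx
            exact sub_nonneg.2 hx
          show ∫⁻ x, ENNReal.ofReal (G x - fn n x) ∂μ ≤ ENNReal.ofReal (∫ x, G x ∂μ - Ln n)
          rw [e0]
          apply ENNReal.ofReal_le_ofReal
          rw [integral_sub hG (hfn n)]
          linarith [h4 n]
      _ = ENNReal.ofReal (∫ x, G x ∂μ - L) := by
          apply Tendsto.liminf_eq
          exact (ENNReal.continuous_ofReal.tendsto _).comp (tendsto_const_nhds.sub hL)
  have hint : Integrable (fun x => G x - f x) μ := by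
    refine ⟨hmeas.aestronglyMeasurable, ?_⟩
    rw [hasFiniteIntegral_iff_ofReal hh0]
    exact lt_of_le_of_lt e1 ENNReal.ofReal_lt_top
  have hfi : Integrable f μ := by
    refine (hG.sub hint).congr (Eventually.of_forall fun x => ?_)
    simp
  refine ⟨hfi, ?_⟩
  rw [← ofReal_integral_eq_lintegral_ofReal hint hh0] at e1
  have e2 : 0 ≤ ∫ x, G x ∂μ - L := by
    refine ge_of_tendsto' (tendsto_const_nhds.sub hL) fun n => ?_
    have := integral_mono_ae (hfn n) hG (h1 n)
    linarith [h4 n]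
  have e3 := (ENNReal.ofReal_le_ofReal_iff e2).1 e1
  rw [integral_sub hG hfi] at e3
  linarith

/-- the majorant -/
noncomputable def GG (A θ : ℝ) : ℝ := |A| * (1 + Real.log 3 - Real.log (Real.sin θ))

theorem GG_nonneg (A θ : ℝ) : 0 ≤ GG A θ := by
  unfold GG
  have h1 : Real.log (Real.sin θ) ≤ 0 := by
    rw [← Real.log_abs]
    exact Real.log_nonpos (abs_nonneg _) (Real.abs_sin_le_one θ)
  have h2 : 0 ≤ Real.log 3 := Real.log_nonneg (by norm_num)
  exact mul_nonneg (abs_nonneg _) (by linarith)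

theorem im_cis (r θ : ℝ) : ((r : ℂ) * Complex.exp (θ * Complex.I)).im = r * Real.sin θ := by
  rw [Complex.mul_im, Complex.exp_ofReal_mul_I_re, Complex.exp_ofReal_mul_I_im]
  simp

theorem norm_cis {r : ℝ} (hr : 0 ≤ r) (θ : ℝ) : ‖(r : ℂ) * Complex.exp (θ * Complex.I)‖ = r := by
  rw [norm_mul, Complex.norm_exp_ofReal_mul_I, mul_one, Complex.norm_real,
    Real.norm_of_nonneg hr]

theorem dom {F : ℂ → ℂ} {A : ℝ} (hb : ∀ w ∈ Metric.closedBall (0 : ℂ) 1 \ {-1},
    ‖F w‖ ≤ Real.exp (A * (1 + Real.log (1 + 1 / ‖1 + w‖)))) {r θ : ℝ} (hr : 1 / 2 ≤ r)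
    (hr1 : r ≤ 1) (hθ : Real.sin θ ≠ 0) :
    (r : ℂ) * Complex.exp (θ * Complex.I) ∈ Metric.closedBall (0 : ℂ) 1 \ {-1} ∧
    Real.log ‖F (r * Complex.exp (θ * Complex.I))‖ ≤ GG A θ := by
  obtain ⟨w, hw⟩ : ∃ w : ℂ, w = (r : ℂ) * Complex.exp (θ * Complex.I) := ⟨_, rfl⟩
  rw [← hw]
  have hwn : ‖w‖ = r := by rw [hw, norm_cis (by linarith)]
  have hwi : w.im = r * Real.sin θ := by rw [hw, im_cis]
  have hs0 : 0 < |Real.sin θ| := abs_pos.2 hθ
  have hs1 : |Real.sin θ| ≤ 1 := Real.abs_sin_le_one θ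
  have hmem : w ∈ Metric.closedBall (0 : ℂ) 1 \ {-1} := by
    refine ⟨?_, ?_⟩
    · rw [mem_closedBall_zero_iff, hwn]; exact hr1
    · intro h
      rw [mem_singleton_iff] at h
      rw [h] at hwi
      simp only [Complex.neg_im, Complex.one_im, neg_zero] at hwi
      have : r * Real.sin θ ≠ 0 := mul_ne_zero (by linarith) hθ
      exact this hwi.symm
  refine ⟨hmem, ?_⟩
  rcases eq_or_ne (F w) 0 with h0 | h0
  · rw [h0, norm_zero, Real.log_zero]
    exact GG_nonneg A θ
  have h1 := Real.log_le_log (norm_pos_iff.2 h0) (hb w hmem)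
  rw [Real.log_exp] at h1
  refine h1.trans ?_
  have h2 : |Real.sin θ| / 2 ≤ ‖1 + w‖ := by
    have h3 := Complex.abs_im_le_norm (1 + w)
    rw [Complex.add_im, Complex.one_im, zero_add, hwi, abs_mul, abs_of_nonneg (by linarith)] at h3
    nlinarith
  have h3 : 0 < ‖1 + w‖ := by linarith [half_pos hs0]
  have h4 : 1 + 1 / ‖1 + w‖ ≤ 3 / |Real.sin θ| := by
    have h5 : 1 / ‖1 + w‖ ≤ 2 / |Real.sin θ| := by
      rw [div_le_div_iff₀ h3 hs0]; linarith
    have h6 : 1 ≤ 1 / |Real.sin θ| := by rw [one_le_div hs0]; exact hs1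
    calc 1 + 1 / ‖1 + w‖ ≤ 1 / |Real.sin θ| + 2 / |Real.sin θ| := add_le_add h6 h5
      _ = 3 / |Real.sin θ| := by ring
  have h5 : Real.log (1 + 1 / ‖1 + w‖) ≤ Real.log 3 - Real.log (Real.sin θ) := by
    have h6 := Real.log_le_log (by positivity) h4
    rwa [Real.log_div (by norm_num) hs0.ne', Real.log_abs] at h6
  have h6 : 0 ≤ Real.log (1 + 1 / ‖1 + w‖) := by
    apply Real.log_nonneg
    have : 0 < 1 / ‖1 + w‖ := by positivity
    linarith
  unfold GG
  calc A * (1 + Real.log (1 + 1 / ‖1 + w‖)) ≤ |A| * (1 + Real.log (1 + 1 / ‖1 + w‖)) :=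
        mul_le_mul_of_nonneg_right (le_abs_self A) (by linarith)
    _ ≤ |A| * (1 + Real.log 3 - Real.log (Real.sin θ)) :=
        mul_le_mul_of_nonneg_left (by linarith) (abs_nonneg A)

theorem GG_int (A : ℝ) : IntervalIntegrable (GG A) volume (-Real.pi) Real.pi := by
  have h1 : IntervalIntegrable (Real.log ∘ Real.sin) volume (-Real.pi) Real.pi :=
    intervalIntegrable_log_sin
  have h2 : IntervalIntegrable (fun _ : ℝ => 1 + Real.log 3) volume (-Real.pi) Real.pi :=
    intervalIntegrable_const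
  exact (h2.sub h1).const_mul |A|

theorem ae_sin : ∀ᵐ θ : ℝ ∂(volume.restrict (Ioc (-Real.pi) Real.pi)),
    Real.sin θ ≠ 0 ∧ -Real.pi < θ ∧ θ < Real.pi := by
  rw [ae_restrict_iff' measurableSet_Ioc]
  have h1 : ∀ᵐ θ : ℝ, θ ≠ 0 := by simp [ae_iff]
  have h2 : ∀ᵐ θ : ℝ, θ ≠ Real.pi := by simp [ae_iff]
  filter_upwards [h1, h2] with θ hθ1 hθ2 hθ
  have h3 : θ < Real.pi := lt_of_le_of_ne hθ.2 hθ2
  refine ⟨?_, hθ.1, h3⟩
  intro h4
  rw [Real.sin_eq_zero_iff_of_lt_of_lt hθ.1 h3] at h4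
  exact hθ1 h4

theorem cis_anal (r θ : ℝ) :
    AnalyticAt ℝ (fun t : ℝ => (r : ℂ) * Complex.exp (t * Complex.I)) θ := by
  have h1 : AnalyticAt ℝ (fun t : ℝ => (t : ℂ)) θ := Complex.ofRealCLM.analyticAt θ
  have h2 : AnalyticAt ℝ (fun t : ℝ => (t : ℂ) * Complex.I) θ := h1.mul analyticAt_const
  have h3 : AnalyticAt ℝ Complex.exp ((θ : ℂ) * Complex.I) := by
    have := (Complex.differentiable_exp.analyticAt ((θ : ℂ) * Complex.I))
    exact this.restrictScalars
  have h4 : AnalyticAt ℝ (fun t : ℝ => Complex.exp ((t : ℂ) * Complex.I)) θ :=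
    AnalyticAt.fun_comp (g := Complex.exp) (f := fun t : ℝ => (t : ℂ) * Complex.I) h3 h2
  exact analyticAt_const.mul h4

theorem main : Pool.Agent.N804.GM.S_DISC := by
  intro F A hF hb h0
  obtain ⟨μ, hμ⟩ : ∃ μ : Measure ℝ, μ = volume.restrict (Ioc (-Real.pi) Real.pi) := ⟨_, rfl⟩
  have hpi : -Real.pi ≤ Real.pi := by linarith [Real.pi_pos]
  have hG : Integrable (GG A) μ := by
    have := (GG_int A).1
    rw [hμ]; exact this
  have hae := ae_sin
  rw [← hμ] at hae
  -- the function on the circle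
  obtain ⟨f, hf⟩ : ∃ f : ℝ → ℝ, f = fun θ : ℝ => Real.log ‖F (Complex.exp (θ * Complex.I))‖ :=
    ⟨_, rfl⟩
  have hcis : ∀ θ : ℝ, Complex.exp (θ * Complex.I) = ((1 : ℝ) : ℂ) * Complex.exp (θ * Complex.I) := by
    intro θ; simp
  have hmem1 : ∀ θ : ℝ, -Real.pi < θ → θ < Real.pi →
      Complex.exp (θ * Complex.I) ∈ Metric.closedBall (0 : ℂ) 1 \ {-1} := by
    intro θ h1 h2
    refine ⟨?_, ?_⟩
    · rw [mem_closedBall_zero_iff, Complex.norm_exp_ofReal_mul_I]
    · intro h
      rw [mem_singleton_iff] at h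
      have h3 := congrArg Complex.re h
      rw [Complex.exp_ofReal_mul_I_re, Complex.neg_re, Complex.one_re] at h3
      have h4 : Real.cos θ ≠ -1 := by
        intro h5
        have h6 : Real.sin θ = 0 := by
          have := Real.sin_sq_add_cos_sq θ
          rw [h5] at this
          nlinarith
        rw [Real.sin_eq_zero_iff_of_lt_of_lt h1 h2] at h6
        rw [h6, Real.cos_zero] at h5
        norm_num at h5
      exact h4 h3
  have hfm : AEMeasurable f μ := by
    have hc : ContinuousOn (fun θ : ℝ => F (Complex.exp (θ * Complex.I))) (Ioo (-Real.pi) Real.pi) := by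
      intro θ hθ
      have h1 : ContinuousAt F (Complex.exp (θ * Complex.I)) :=
        (hF _ (hmem1 θ hθ.1 hθ.2)).continuousAt
      have h2 : ContinuousAt (fun θ : ℝ => Complex.exp (θ * Complex.I)) θ := by fun_prop
      exact (ContinuousAt.comp (f := fun θ : ℝ => Complex.exp (θ * Complex.I)) (g := F) h1
        h2).continuousWithinAt
    have h3 : AEMeasurable (fun θ : ℝ => F (Complex.exp (θ * Complex.I)))
        (volume.restrict (Ioo (-Real.pi) Real.pi)) :=
      (hc.aestronglyMeasurable measurableSet_Ioo).aemeasurable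
    have h4 : μ = volume.restrict (Ioo (-Real.pi) Real.pi) := by
      rw [hμ]; exact (Measure.restrict_congr_set Ioo_ae_eq_Ioc).symm
    rw [h4, hf]
    exact Real.measurable_log.comp_aemeasurable (measurable_norm.comp_aemeasurable h3)
  have hfG : ∀ᵐ θ ∂μ, f θ ≤ GG A θ := by
    filter_upwards [hae] with θ hθ
    rw [hf]
    simp only
    rw [hcis]
    exact (dom hb (by norm_num) le_rfl hθ.1).2
  -- the key claim
  have key : ∀ S : Finset ℂ, (∀ w ∈ S, ‖w‖ < 1 ∧ F w = 0) → Integrable f μ ∧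
      2 * Real.pi * (Real.log ‖F 0‖ + ∑ w ∈ S, (analyticOrderNatAt F w : ℝ) *
        Real.log (1 / ‖w‖)) ≤ ∫ θ, f θ ∂μ := by
    intro S hS
    obtain ⟨ρ, hρ1, hρ2, hρ3⟩ : ∃ ρ : ℝ, 1 / 2 ≤ ρ ∧ ρ < 1 ∧ ∀ w ∈ S, ‖w‖ < ρ := by
      have h1 : ∃ m : ℝ, 1 / 2 ≤ m ∧ m < 1 ∧ ∀ w ∈ S, ‖w‖ ≤ m := by
        clear h0
        classical
        induction S using Finset.induction_on with
        | empty => exact ⟨1 / 2, le_rfl, by norm_num, by simp⟩
        | insert a s ha ih =>
          obtain ⟨m, h1, h2, h3⟩ := ih fun w hw => hS w (Finset.mem_insert_of_mem hw)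
          refine ⟨max m ‖a‖, h1.trans (le_max_left _ _),
            max_lt h2 (hS a (Finset.mem_insert_self _ _)).1, ?_⟩
          intro w hw
          rw [Finset.mem_insert] at hw
          rcases hw with rfl | hw
          · exact le_max_right _ _
          · exact (h3 w hw).trans (le_max_left _ _)
      obtain ⟨m, h2, h3, h4⟩ := h1
      refine ⟨(1 + m) / 2, by linarith, by linarith, fun w hw => ?_⟩
      have := h4 w hw
      linarith
    obtain ⟨rn, hrn⟩ : ∃ rn : ℕ → ℝ, rn = fun n : ℕ => 1 - (1 - ρ) / ((n : ℝ) + 1) := ⟨_, rfl⟩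
    have hr1 : ∀ n, rn n < 1 := by
      intro n
      rw [hrn]
      have : 0 < (1 - ρ) / ((n : ℝ) + 1) := div_pos (by linarith) (by positivity)
      simp only
      linarith
    have hr2 : ∀ n, ρ ≤ rn n := by
      intro n
      rw [hrn]
      have : (1 - ρ) / ((n : ℝ) + 1) ≤ 1 - ρ := by
        apply div_le_self (by linarith)
        have : (0 : ℝ) ≤ n := Nat.cast_nonneg n
        linarith
      simp only
      linarith
    have hrt : Tendsto rn atTop (𝓝 1) := by
      rw [hrn]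
      have h1 : Tendsto (fun n : ℕ => (1 - ρ) / ((n : ℝ) + 1)) atTop (𝓝 0) := by
        have h2 := tendsto_one_div_add_atTop_nhds_zero_nat (𝕜 := ℝ)
        have h3 := h2.const_mul (1 - ρ)
        rw [mul_zero] at h3
        refine h3.congr fun n => ?_
        ring
      have h4 := h1.const_sub 1
      rwa [sub_zero] at h4
    have hFr : ∀ n, AnalyticOnNhd ℂ F (Metric.closedBall 0 (rn n)) := by
      intro n z hz
      rw [mem_closedBall_zero_iff] at hz
      refine hF z ⟨?_, ?_⟩
      · rw [mem_closedBall_zero_iff]; exact hz.trans (hr1 n).le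
      · intro h
        rw [mem_singleton_iff] at h
        rw [h, norm_neg, norm_one] at hz
        linarith [hr1 n]
    obtain ⟨fn, hfn⟩ : ∃ fn : ℕ → ℝ → ℝ, fn = fun (n : ℕ) (θ : ℝ) =>
      Real.log ‖F ((rn n : ℂ) * Complex.exp (θ * Complex.I))‖ := ⟨_, rfl⟩
    have hfi : ∀ n, IntervalIntegrable (fn n) volume (-Real.pi) Real.pi := by
      intro n
      rw [hfn]
      have h1 : MeromorphicOn (fun θ : ℝ => F ((rn n : ℂ) * Complex.exp (θ * Complex.I)))
          (Set.uIcc (-Real.pi) Real.pi) := by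
        intro θ _
        have h2 : AnalyticAt ℂ F ((rn n : ℂ) * Complex.exp (θ * Complex.I)) := by
          apply hFr n
          rw [mem_closedBall_zero_iff, norm_cis (by linarith [hr2 n])]
        have h3 : AnalyticAt ℝ F ((rn n : ℂ) * Complex.exp (θ * Complex.I)) := h2.restrictScalars
        exact (AnalyticAt.fun_comp (g := F)
          (f := fun θ : ℝ => (rn n : ℂ) * Complex.exp (θ * Complex.I)) h3
          (cis_anal (rn n) θ)).meromorphicAt
      exact h1.intervalIntegrable_log_norm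
    have hfi' : ∀ n, Integrable (fn n) μ := by
      intro n
      rw [hμ]; exact (hfi n).1
    refine fatou_log (Ln := fun n => 2 * Real.pi * (Real.log ‖F 0‖ +
      ∑ w ∈ S, (analyticOrderNatAt F w : ℝ) * Real.log (rn n / ‖w‖))) hG hfi' hfm ?_ hfG ?_ ?_ ?_
    · intro n
      filter_upwards [hae] with θ hθ
      rw [hfn]
      exact (dom hb (by linarith [hr2 n]) (hr1 n).le hθ.1).2
    · filter_upwards [hae] with θ hθ
      have hm := hmem1 θ hθ.2.1 hθ.2.2
      have hcF : ContinuousAt F (Complex.exp (θ * Complex.I)) := (hF _ hm).continuousAt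
      have ht : Tendsto (fun n => (rn n : ℂ) * Complex.exp (θ * Complex.I)) atTop
          (𝓝 (Complex.exp (θ * Complex.I))) := by
        have h1 : Tendsto (fun n => ((rn n : ℝ) : ℂ)) atTop (𝓝 ((1 : ℝ) : ℂ)) :=
          (Complex.continuous_ofReal.tendsto 1).comp hrt
        have h2 := h1.mul_const (Complex.exp (θ * Complex.I))
        rwa [Complex.ofReal_one, one_mul] at h2
      have ht2 : Tendsto (fun n => ‖F ((rn n : ℂ) * Complex.exp (θ * Complex.I))‖) atTop
          (𝓝 ‖F (Complex.exp (θ * Complex.I))‖) := (hcF.tendsto.comp ht).norm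
      rcases eq_or_ne (F (Complex.exp (θ * Complex.I))) 0 with hz | hz
      · rw [hf]
        simp only
        rw [hz, norm_zero, Real.log_zero, sub_zero]
        rw [hz, norm_zero] at ht2
        refine le_liminf_of_le (by isBoundedDefault) ?_
        filter_upwards [ht2.eventually (ge_mem_nhds (by norm_num : (0 : ℝ) < 1))] with n hn
        apply ENNReal.ofReal_le_ofReal
        rw [hfn]
        simp only
        have := Real.log_nonpos (norm_nonneg (F ((rn n : ℂ) * Complex.exp (θ * Complex.I)))) hn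
        linarith
      · have h1 : Tendsto (fun n => ENNReal.ofReal (GG A θ - fn n θ)) atTop
            (𝓝 (ENNReal.ofReal (GG A θ - f θ))) := by
          refine (ENNReal.continuous_ofReal.tendsto _).comp ?_
          refine tendsto_const_nhds.sub ?_
          rw [hfn, hf]
          exact (Real.continuousAt_log (norm_ne_zero_iff.2 hz)).tendsto.comp ht2
        exact h1.liminf_eq.ge
    · refine Tendsto.const_mul _ (tendsto_const_nhds.add (tendsto_finsetSum _ fun w hw => ?_))
      refine Tendsto.const_mul _ ?_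
      obtain ⟨-, hw2⟩ := hS w hw
      have hw0 : w ≠ 0 := by
        rintro rfl
        exact h0 hw2
      have hw0' : ‖w‖ ≠ 0 := norm_ne_zero_iff.2 hw0
      refine (Real.continuousAt_log (by positivity)).tendsto.comp ?_
      exact hrt.div_const _
    · intro n
      have h1 := jens (r := rn n) (by linarith [hr2 n]) (hFr n) h0 S fun w hw =>
        ⟨lt_of_lt_of_le (hρ3 w hw) (hr2 n), (hS w hw).2⟩
      rw [avg_eq, intervalIntegral.integral_of_le hpi, ← hμ, one_div,
        inv_mul_eq_div, le_div_iff₀ (by positivity)] at h1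
      rw [hfn]
      simp only
      linarith
  have hI := (key ∅ (by simp)).1
  constructor
  · rw [intervalIntegrable_iff_integrableOn_Ioc_of_le hpi, IntegrableOn, ← hμ, ← hf]
    exact hI
  · intro S hS
    have h1 := (key S hS).2
    rw [intervalIntegral.integral_of_le hpi, ← hμ, one_div, inv_mul_eq_div,
      le_div_iff₀ (by positivity)]
    rw [hf] at h1
    linarith

end Pool.Agent.N79.GM1
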