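import Pool.Agent.N604.MW.Stm13
import Pool.Agent.N619.AD_Afin

/-!
# Project AP (helper604), part PFIN (helper79): from smoothed to sharp sums over primes

Adapted from the file of helper619 for project AD.
-/

set_option autoImplicit false

namespace Pool.Agent.N79.AP

open Finset Filter Topology Pool.Agent.N604.MW
open Pool.Agent.N619.AD (lam_nonneg lam_zero lam_ge lam_le pow_cmp)

theorem lamp_nonneg (n : ℕ) : 0 ≤ lam n := by
  unfold lam
  split_ifs with h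
  · exact Real.log_natCast_nonneg n
  · exact le_rfl

/-- the diagonal form -/
noncomputable def F {s : ℕ} (k : ℕ) (α : Fin s → ℝ) (x : Fin s → ℕ) : ℝ :=
  ∑ i, α i * (x i : ℝ) ^ k

open scoped Classical in
theorem ps_eq {s : ℕ} (k : ℕ) (α : Fin s → ℝ) (y Δ : ℝ) (ν : ℕ) (hα : ∀ i, 0 < α i)
    (hν : ∀ i, y + Δ ≤ α i * ((2 : ℝ) ^ ν) ^ k) :
    PS s k α y Δ = ∑ x ∈ Fintype.piFinset (fun _ : Fin s => range (2 ^ ν)),
      (∏ i, lam (x i)) * (if (y ≤ F k α x ∧ F k α x < y + Δ) then (1 : ℝ) else 0) := by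
  have hset : {p : Fin s → ℕ | (∀ i, (p i).Prime) ∧ y ≤ ∑ i, α i * (p i : ℝ) ^ k ∧
      ∑ i, α i * (p i : ℝ) ^ k < y + Δ} =
      (((Fintype.piFinset (fun _ : Fin s => range (2 ^ ν))).filter
        (fun p => (∀ i, (p i).Prime) ∧ y ≤ F k α p ∧ F k α p < y + Δ) : Finset (Fin s → ℕ)) :
          Set (Fin s → ℕ)) := by
    ext x
    simp only [coe_filter, Set.mem_ofPred_eq]
    constructor
    · intro hx
      refine ⟨?_, hx⟩
      rw [Fintype.mem_piFinset]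
      intro i
      rw [mem_range]
      have h1 : α i * (x i : ℝ) ^ k ≤ ∑ i, α i * (x i : ℝ) ^ k :=
        single_le_sum (f := fun i => α i * (x i : ℝ) ^ k)
          (fun i _ => mul_nonneg (hα i).le (by positivity)) (mem_univ i)
      have h2 : α i * (x i : ℝ) ^ k < α i * ((2 : ℝ) ^ ν) ^ k :=
        (h1.trans_lt hx.2.2).trans_le (hν i)
      have h3 : (x i : ℝ) ^ k < ((2 : ℝ) ^ ν) ^ k := lt_of_mul_lt_mul_left h2 (hα i).le
      have h4 : (x i : ℝ) < (2 : ℝ) ^ ν := lt_of_pow_lt_pow_left₀ k (by positivity) h3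
      exact_mod_cast h4
    · exact fun hx => hx.2
  unfold PS
  rw [hset, finsum_mem_coe_finset, sum_filter]
  refine sum_congr rfl fun x _ => ?_
  by_cases hp : ∀ i, (x i).Prime
  · have e : ∏ i, lam (x i) = ∏ i, Real.log (x i) := prod_congr rfl fun i _ => by
      unfold lam
      rw [if_pos (hp i)]
    rw [e]
    by_cases h : (y ≤ F k α x ∧ F k α x < y + Δ)
    · rw [if_pos ⟨hp, h⟩, if_pos h, mul_one]
    · rw [if_neg (fun h' => h h'.2), if_neg h, mul_zero]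
  · rw [if_neg (fun h' => hp h'.1)]
    push Not at hp
    obtain ⟨i, hi⟩ := hp
    rw [prod_eq_zero (mem_univ i) (by unfold lam; rw [if_neg hi]), zero_mul]

theorem rw_sum {s : ℕ} (k q : ℕ) (α : Fin s → ℝ) (x : Fin s → ℕ) :
    ∑ i, nk k ((q : ℝ) * α i) (x i) = q * F k α x := by
  unfold nk F
  rw [mul_sum]
  exact sum_congr rfl fun i _ => by ring

theorem upper {s : ℕ} (k q ν : ℕ) (α : Fin s → ℝ) (y Δ : ℝ) (hα : ∀ i, 0 < α i) (hq : 1 ≤ q)
    (hν : ∀ i, y + Δ ≤ α i * ((2 : ℝ) ^ ν) ^ k) (D U : ℤ) (hD : (D : ℝ) ≤ q * y)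
    (hU : q * (y + Δ) ≤ U) :
    PS s k α y Δ ≤
      ∑ j ∈ Icc D U, RW (fun _ => range (2 ^ ν)) lam (fun i => nk k ((q : ℝ) * α i)) j := by
  classical
  have hq0 : (0 : ℝ) < q := by exact_mod_cast hq
  rw [ps_eq k α y Δ ν hα hν]
  unfold RW
  rw [sum_comm]
  apply sum_le_sum
  intro x _
  simp only [rw_sum]
  rw [← mul_sum]
  refine mul_le_mul_of_nonneg_left ?_ (prod_nonneg fun i _ => lamp_nonneg _)
  split_ifs with h
  · apply lam_ge
    · exact hD.trans (mul_le_mul_of_nonneg_left h.1 hq0.le)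
    · exact (mul_le_mul_of_nonneg_left h.2.le hq0.le).trans hU
  · exact sum_nonneg fun j _ => lam_nonneg _

theorem lower {s : ℕ} (k q ν : ℕ) (α : Fin s → ℝ) (y Δ : ℝ) (hα : ∀ i, 0 < α i) (hq : 1 ≤ q)
    (hν : ∀ i, y + Δ ≤ α i * ((2 : ℝ) ^ ν) ^ k) (D U : ℤ) (hD : q * y ≤ (D : ℝ) - 1)
    (hU : (U : ℝ) + 1 ≤ q * (y + Δ)) :
    ∑ j ∈ Icc D U, RW (fun _ => range (2 ^ ν)) lam (fun i => nk k ((q : ℝ) * α i)) j ≤
      PS s k α y Δ := by
  classical
  have hq0 : (0 : ℝ) < q := by exact_mod_cast hq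
  rw [ps_eq k α y Δ ν hα hν]
  unfold RW
  rw [sum_comm]
  apply sum_le_sum
  intro x _
  simp only [rw_sum]
  rw [← mul_sum]
  refine mul_le_mul_of_nonneg_left ?_ (prod_nonneg fun i _ => lamp_nonneg _)
  split_ifs with h
  · exact lam_le _ D U
  · apply le_of_eq
    apply sum_eq_zero
    intro j hj
    rw [mem_Icc] at hj
    apply lam_zero
    by_contra hlt
    push Not at hlt
    rw [abs_lt] at hlt
    apply h
    have h1 : (D : ℝ) ≤ j := by exact_mod_cast hj.1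
    have h2 : (j : ℝ) ≤ U := by exact_mod_cast hj.2
    constructor
    · have : q * y ≤ q * F k α x := by linarith [hlt.1]
      exact le_of_mul_le_mul_left this hq0
    · have : q * F k α x < q * (y + Δ) := by linarith [hlt.2]
      exact lt_of_mul_lt_mul_left this hq0.le

/-- a large power of two -/
theorem ex_nu {s : ℕ} (k : ℕ) (hk : 1 ≤ k) (α : Fin s → ℝ) (hα : ∀ i, 0 < α i) (Y : ℝ) :
    ∃ ν : ℕ, ∀ i, Y ≤ α i * ((2 : ℝ) ^ ν) ^ k := by
  have h1 : Tendsto (fun ν : ℕ => ((2 : ℝ) ^ ν) ^ k) atTop atTop :=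
    (tendsto_pow_atTop (by omega)).comp (tendsto_pow_atTop_atTop_of_one_lt (by norm_num))
  have h2 : ∀ i, ∀ᶠ ν : ℕ in atTop, Y ≤ α i * ((2 : ℝ) ^ ν) ^ k := fun i =>
    (h1.const_mul_atTop (hα i)).eventually_ge_atTop Y
  exact (eventually_all.2 h2).exists

/-- the bounds for one `q` -/
theorem bounds {s : ℕ} (k : ℕ) (hk : 1 ≤ k) (α : Fin s → ℝ) (hα : ∀ i, 0 < α i) (c κ : ℝ)
    (hκ : κ = (s : ℝ) / k - 1) (q : ℕ) (hq : 1 ≤ q)
    (hasy : ASYW s k (fun i => q * α i) (c * (q : ℝ) ^ (-((s : ℝ) / k)))) (Δ : ℝ) (hΔ : 0 < Δ)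
    (τ : ℝ) (hτ : 0 < τ) (hτc : τ < c) (hτ1 : τ < 1) (hq3 : 3 < q * Δ) :
    ∀ᶠ y : ℝ in atTop, (Δ - 3 / q) * (c - τ) * (1 - τ) ≤ PS s k α y Δ / y ^ κ ∧
      PS s k α y Δ / y ^ κ ≤ (Δ + 3 / q) * (c + τ) * (1 + τ) := by
  have hq0 : (0 : ℝ) < q := by exact_mod_cast hq
  have hκ2 : -((s : ℝ) / k) = -κ - 1 := by rw [hκ]; ring
  have hc : 0 < c := hτ.trans hτc
  have hQ : 0 < (q : ℝ) ^ (-κ - 1) := by positivity
  obtain ⟨n0, hn0⟩ := hasy (τ * (q : ℝ) ^ (-κ - 1)) (by positivity)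
  rw [← hκ, hκ2] at hn0
  obtain ⟨y0, hy01, hy0⟩ := pow_cmp κ τ 1 (q * Δ + 1) hτ
  filter_upwards [eventually_ge_atTop ((y0 + n0 + 2) / q)] with y hy
  have hqy : y0 + n0 + 2 ≤ q * y := by
    rw [div_le_iff₀ hq0] at hy
    linarith
  have hn00 : (0 : ℝ) ≤ n0 := Nat.cast_nonneg _
  have hypos : 0 < y := by
    by_contra h
    push Not at h
    nlinarith
  have hyκ : 0 < y ^ κ := by positivity
  -- the smoothed counts
  have hqyκ : (q * y) ^ κ = (q : ℝ) ^ κ * y ^ κ := Real.mul_rpow hq0.le hypos.le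
  have hQq : (q : ℝ) ^ (-κ - 1) * (q : ℝ) ^ κ = 1 / q := by
    rw [← Real.rpow_add hq0]
    have : -κ - 1 + κ = -1 := by ring
    rw [this, Real.rpow_neg_one, one_div]
  set U : ℤ := ⌈(q : ℝ) * (y + Δ)⌉ with hU
  set D : ℤ := ⌊(q : ℝ) * y⌋ with hD
  have hU1 : (q : ℝ) * (y + Δ) ≤ U := Int.le_ceil _
  have hU2 : (U : ℝ) < q * (y + Δ) + 1 := Int.ceil_lt_add_one _
  have hD1 : (D : ℝ) ≤ q * y := Int.floor_le _
  have hD2 : (q : ℝ) * y < D + 1 := Int.lt_floor_add_one _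
  obtain ⟨ν, hν⟩ := ex_nu k hk (fun i => (q : ℝ) * α i) (fun i => mul_pos hq0 (hα i)) ((U : ℝ) + 1)
  have hν2 : ∀ i, y + Δ ≤ α i * ((2 : ℝ) ^ ν) ^ k := by
    intro i
    have h1 : (q : ℝ) * (y + Δ) ≤ q * (α i * ((2 : ℝ) ^ ν) ^ k) := by
      have h2 : (U : ℝ) + 1 ≤ q * α i * ((2 : ℝ) ^ ν) ^ k := hν i
      linarith [mul_assoc (q : ℝ) (α i) (((2 : ℝ) ^ ν) ^ k)]
    exact le_of_mul_le_mul_left h1 hq0
  have hRG : ∀ j : ℤ, D ≤ j → j ≤ U →
      (c - τ) * (q : ℝ) ^ (-κ - 1) * ((1 - τ) * (q * y) ^ κ) ≤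
        RW (fun _ => range (2 ^ ν)) lam (fun i => nk k ((q : ℝ) * α i)) j ∧
      RW (fun _ => range (2 ^ ν)) lam (fun i => nk k ((q : ℝ) * α i)) j ≤
        (c + τ) * (q : ℝ) ^ (-κ - 1) * ((1 + τ) * (q * y) ^ κ) := by
    intro j hDj hjU
    have hDj' : (D : ℝ) ≤ j := by exact_mod_cast hDj
    have hjU' : (j : ℝ) ≤ U := by exact_mod_cast hjU
    have hjn : (n0 : ℝ) ≤ j := by linarith
    have hj0 : 0 ≤ j := by
      have : (0 : ℝ) ≤ j := hn00.trans hjn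
      exact_mod_cast this
    obtain ⟨n, rfl⟩ := Int.eq_ofNat_of_zero_le hj0
    have hn : n0 ≤ n := by
      have : (n0 : ℝ) ≤ (n : ℝ) := by exact_mod_cast hjn
      exact_mod_cast this
    have hcast : ((n : ℤ) : ℝ) = (n : ℝ) := by push_cast; rfl
    rw [hcast] at hDj' hjU'
    have h1 := hn0 n ν hn (fun i => by
      have h2 : (U : ℝ) + 1 ≤ q * α i * ((2 : ℝ) ^ ν) ^ k := hν i
      show (n : ℝ) + 1 ≤ q * α i * ((2 : ℝ) ^ ν) ^ k
      linarith)
    rw [abs_le] at h1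
    have h2 := hy0 (q * y) (by linarith) n (by linarith) (by linarith)
    have hnκ : 0 ≤ (n : ℝ) ^ κ := by positivity
    constructor
    · have h3 : (c - τ) * (q : ℝ) ^ (-κ - 1) * ((1 - τ) * (q * y) ^ κ) ≤
          (c - τ) * (q : ℝ) ^ (-κ - 1) * (n : ℝ) ^ κ :=
        mul_le_mul_of_nonneg_left h2.1 (mul_nonneg (by linarith) hQ.le)
      have h4 : (c - τ) * (q : ℝ) ^ (-κ - 1) * (n : ℝ) ^ κ =
          c * (q : ℝ) ^ (-κ - 1) * (n : ℝ) ^ κ - τ * (q : ℝ) ^ (-κ - 1) * (n : ℝ) ^ κ := by ring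
      linarith [h1.1]
    · have h3 : (c + τ) * (q : ℝ) ^ (-κ - 1) * (n : ℝ) ^ κ ≤
          (c + τ) * (q : ℝ) ^ (-κ - 1) * ((1 + τ) * (q * y) ^ κ) :=
        mul_le_mul_of_nonneg_left h2.2 (mul_nonneg (by linarith) hQ.le)
      have h4 : (c + τ) * (q : ℝ) ^ (-κ - 1) * (n : ℝ) ^ κ =
          c * (q : ℝ) ^ (-κ - 1) * (n : ℝ) ^ κ + τ * (q : ℝ) ^ (-κ - 1) * (n : ℝ) ^ κ := by ring
      linarith [h1.2]
  have hlo : ∀ t u : ℝ, t * (q : ℝ) ^ (-κ - 1) * (u * (q * y) ^ κ) = t * u / q * y ^ κ := by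
    intro t u
    rw [hqyκ]
    calc t * (q : ℝ) ^ (-κ - 1) * (u * ((q : ℝ) ^ κ * y ^ κ)) =
        t * u * ((q : ℝ) ^ (-κ - 1) * (q : ℝ) ^ κ) * y ^ κ := by ring
      _ = t * u * (1 / q) * y ^ κ := by rw [hQq]
      _ = _ := by ring
  constructor
  · -- lower bound
    rw [le_div_iff₀ hyκ]
    set D' : ℤ := ⌈(q : ℝ) * y⌉ + 1 with hD'
    set U' : ℤ := ⌊(q : ℝ) * (y + Δ)⌋ - 1 with hU'
    have e1 : (q : ℝ) * y ≤ ⌈(q : ℝ) * y⌉ := Int.le_ceil _
    have e2 : (⌈(q : ℝ) * y⌉ : ℝ) < q * y + 1 := Int.ceil_lt_add_one _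
    have e3 : (⌊(q : ℝ) * (y + Δ)⌋ : ℝ) ≤ q * (y + Δ) := Int.floor_le _
    have e4 : (q : ℝ) * (y + Δ) < ⌊(q : ℝ) * (y + Δ)⌋ + 1 := Int.lt_floor_add_one _
    have h1 := lower k q ν α y Δ hα hq hν2 D' U' (by rw [hD']; push_cast; linarith)
      (by rw [hU']; push_cast; linarith)
    refine le_trans ?_ h1
    have h2 : ∀ j ∈ Icc D' U', (c - τ) * (1 - τ) / q * y ^ κ ≤
        RW (fun _ => range (2 ^ ν)) lam (fun i => nk k ((q : ℝ) * α i)) j := by
      intro j hj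
      rw [mem_Icc] at hj
      rw [← hlo]
      refine (hRG j ?_ ?_).1
      · have : (D : ℝ) ≤ (j : ℝ) := by
          have h3 : (D' : ℝ) ≤ j := by exact_mod_cast hj.1
          rw [hD'] at h3
          push_cast at h3
          linarith
        exact_mod_cast this
      · have : (j : ℝ) ≤ (U : ℝ) := by
          have h3 : (j : ℝ) ≤ U' := by exact_mod_cast hj.2
          rw [hU'] at h3
          push_cast at h3
          linarith
        exact_mod_cast this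
    have h3 := card_nsmul_le_sum (Icc D' U') _ _ h2
    refine le_trans ?_ h3
    rw [nsmul_eq_mul, Int.card_Icc]
    have h4 : (q * Δ - 3 : ℝ) ≤ ((U' + 1 - D').toNat : ℝ) := by
      have h5 : ((U' + 1 - D' : ℤ) : ℝ) ≤ ((U' + 1 - D').toNat : ℝ) := by
        have := Int.self_le_toNat (U' + 1 - D')
        exact_mod_cast this
      refine le_trans ?_ h5
      rw [hU', hD']
      push_cast
      linarith
    have h5 : (Δ - 3 / q) * (c - τ) * (1 - τ) * y ^ κ =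
        (q * Δ - 3) * ((c - τ) * (1 - τ) / q * y ^ κ) := by
      field_simp
    rw [h5]
    apply mul_le_mul_of_nonneg_right h4
    have : 0 ≤ (c - τ) * (1 - τ) := mul_nonneg (by linarith) (by linarith)
    positivity
  · -- upper bound
    rw [div_le_iff₀ hyκ]
    have h1 := upper k q ν α y Δ hα hq hν2 D U hD1 hU1
    refine h1.trans ?_
    have h2 : ∀ j ∈ Icc D U, RW (fun _ => range (2 ^ ν)) lam (fun i => nk k ((q : ℝ) * α i)) j ≤
        (c + τ) * (1 + τ) / q * y ^ κ := by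
      intro j hj
      rw [mem_Icc] at hj
      rw [← hlo]
      exact (hRG j hj.1 hj.2).2
    have h3 := sum_le_card_nsmul (Icc D U) _ _ h2
    refine h3.trans ?_
    rw [nsmul_eq_mul, Int.card_Icc]
    have h4 : ((U + 1 - D).toNat : ℝ) ≤ q * Δ + 3 := by
      have hDU : D ≤ U := by
        have : (D : ℝ) ≤ U := by
          refine hD1.trans (le_trans ?_ hU1)
          exact mul_le_mul_of_nonneg_left (by linarith) hq0.le
        exact_mod_cast this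
      have h5 : (((U + 1 - D).toNat : ℤ) : ℝ) = ((U + 1 - D : ℤ) : ℝ) := by
        rw [Int.toNat_of_nonneg (by omega)]
      have h6 : ((U + 1 - D).toNat : ℝ) = (((U + 1 - D).toNat : ℤ) : ℝ) := by push_cast; rfl
      rw [h6, h5]
      push_cast
      linarith
    have h5 : (Δ + 3 / q) * (c + τ) * (1 + τ) * y ^ κ =
        (q * Δ + 3) * ((c + τ) * (1 + τ) / q * y ^ κ) := by
      field_simp
    rw [h5]
    apply mul_le_mul_of_nonneg_right h4
    positivity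

/-- PFIN -/
theorem pfin : S_PFIN := by
  intro s k α c hk hs hα hc hasy Δ hΔ
  -- choice of `q` and `τ`
  have hlimq : ∀ σ : ℝ, Tendsto (fun q : ℕ => (Δ + σ / q) * c) atTop (𝓝 (Δ * c)) := by
    intro σ
    have h1 : Tendsto (fun q : ℕ => σ / (q : ℝ)) atTop (𝓝 0) := tendsto_const_div_atTop_nhds_zero_nat σ
    have h2 : Tendsto (fun q : ℕ => (Δ + σ / q) * c) atTop (𝓝 ((Δ + 0) * c)) :=
      (h1.const_add Δ).mul_const c
    rwa [add_zero] at h2
  have hq3 : ∀ᶠ q : ℕ in atTop, 3 < (q : ℝ) * Δ := by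
    have h1 : Tendsto (fun q : ℕ => (q : ℝ) * Δ) atTop atTop :=
      tendsto_natCast_atTop_atTop.atTop_mul_const hΔ
    exact h1.eventually_gt_atTop 3
  rw [tendsto_order]
  constructor
  · intro b hb
    have h1 := (hlimq (-3)).eventually_const_lt hb
    obtain ⟨q, ⟨hq1, hq2⟩, hq3⟩ := ((h1.and hq3).and (eventually_ge_atTop 1)).exists
    have hcont : Tendsto (fun τ : ℝ => (Δ - 3 / q) * (c - τ) * (1 - τ)) (𝓝[>] 0)
        (𝓝 ((Δ - 3 / q) * (c - 0) * (1 - 0))) := by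
      apply Tendsto.mono_left _ nhdsWithin_le_nhds
      apply Continuous.tendsto
      fun_prop
    have hlt : b < (Δ - 3 / q) * (c - 0) * (1 - 0) := by
      have : (Δ - 3 / q) * (c - 0) * (1 - 0) = (Δ + -3 / q) * c := by ring
      rw [this]
      exact hq1
    have h2 := hcont.eventually_const_lt hlt
    have h3 : ∀ᶠ τ : ℝ in 𝓝[>] 0, τ < min c 1 :=
      Filter.Eventually.filter_mono nhdsWithin_le_nhds (eventually_lt_nhds (lt_min hc one_pos))
    obtain ⟨τ, ⟨hτ1, hτ2⟩, hτ3⟩ := ((h2.and h3).and self_mem_nhdsWithin).exists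
    filter_upwards [bounds k hk α hα c _ rfl q hq3 (hasy q hq3) Δ hΔ τ hτ3
      (lt_of_lt_of_le hτ2 (min_le_left _ _)) (lt_of_lt_of_le hτ2 (min_le_right _ _)) hq2] with y hy
    exact lt_of_lt_of_le hτ1 hy.1
  · intro b hb
    have h1 := (hlimq 3).eventually_lt_const hb
    obtain ⟨q, ⟨hq1, hq2⟩, hq3⟩ := ((h1.and hq3).and (eventually_ge_atTop 1)).exists
    have hcont : Tendsto (fun τ : ℝ => (Δ + 3 / q) * (c + τ) * (1 + τ)) (𝓝[>] 0)
        (𝓝 ((Δ + 3 / q) * (c + 0) * (1 + 0))) := by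
      apply Tendsto.mono_left _ nhdsWithin_le_nhds
      apply Continuous.tendsto
      fun_prop
    have hlt : (Δ + 3 / q) * (c + 0) * (1 + 0) < b := by
      have : (Δ + 3 / q) * (c + 0) * (1 + 0) = (Δ + 3 / q) * c := by ring
      rw [this]
      exact hq1
    have h2 := hcont.eventually_lt_const hlt
    have h3 : ∀ᶠ τ : ℝ in 𝓝[>] 0, τ < min c 1 :=
      Filter.Eventually.filter_mono nhdsWithin_le_nhds (eventually_lt_nhds (lt_min hc one_pos))
    obtain ⟨τ, ⟨hτ1, hτ2⟩, hτ3⟩ := ((h2.and h3).and self_mem_nhdsWithin).exists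
    filter_upwards [bounds k hk α hα c _ rfl q hq3 (hasy q hq3) Δ hΔ τ hτ3
      (lt_of_lt_of_le hτ2 (min_le_left _ _)) (lt_of_lt_of_le hτ2 (min_le_right _ _)) hq2] with y hy
    exact lt_of_le_of_lt hy.2 hτ1

end Pool.Agent.N79.AP
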