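import Mathlib
import Pool.Agent.N912.EL.Stm

/-! Project EL (helper912), part BES: Bessel's inequality for the primes with `χ(p) = 1` with
arbitrary coefficients and the primitive characters of small conductor (helper79). -/

set_option autoImplicit false

namespace Pool.Agent.N79.ELbes

open Finset
open Pool.Agent.W78.EG
open Pool.Agent.N912.EL
open DirichletCharacter

variable {t c : ℤ} {f : ℕ}

/-- Boas–Bellman inequality -/
theorem gram {ι M : Type*} (I : Finset ι) (S : Finset M) (w a : M → ℝ) (φ : ι → M → ℂ)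
    (hw : ∀ m ∈ S, 0 ≤ w m) (ha : ∀ m ∈ S, |a m| ≤ 1) (D : ℝ) (hD : 0 < D)
    (hG : ∀ i ∈ I, ∑ j ∈ I, ‖∑ m ∈ S, (w m : ℂ) * (φ i m * (starRingEnd ℂ) (φ j m))‖ ≤ D) :
    ∑ i ∈ I, ‖∑ m ∈ S, ((w m * a m : ℝ) : ℂ) * φ i m‖ ^ 2 ≤ (∑ m ∈ S, w m) * D := by
  set s : ι → ℂ := fun i => ∑ m ∈ S, ((w m * a m : ℝ) : ℂ) * φ i m with hs
  set G : ι → ι → ℂ := fun i j => ∑ m ∈ S, (w m : ℂ) * (φ i m * (starRingEnd ℂ) (φ j m)) with hGdef
  set u : M → ℂ := fun m => ∑ i ∈ I, (starRingEnd ℂ) (s i) * φ i m with hu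
  set T : ℝ := ∑ i ∈ I, ‖s i‖ ^ 2 with hT
  have hGsym : ∀ i j, ‖G j i‖ = ‖G i j‖ := by
    intro i j
    have : G j i = (starRingEnd ℂ) (G i j) := by
      simp only [hGdef, map_sum, map_mul, Complex.conj_ofReal, Complex.conj_conj]
      exact sum_congr rfl fun m _ => by ring
    rw [this, Complex.norm_conj]
  have h1 : ∑ m ∈ S, ((w m * a m : ℝ) : ℂ) * u m = (T : ℂ) := by
    simp only [hu, mul_sum]
    rw [sum_comm, hT]
    push_cast
    refine sum_congr rfl fun i _ => ?_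
    have : (starRingEnd ℂ) (s i) * s i = ((‖s i‖ ^ 2 : ℝ) : ℂ) := by
      rw [mul_comm, Complex.mul_conj, Complex.normSq_eq_norm_sq]
    have hz : ∀ z : ℂ, z * s i = ∑ m ∈ S, z * (((w m * a m : ℝ) : ℂ) * φ i m) :=
      fun z => by rw [← mul_sum]
    rw [← Complex.ofReal_pow, ← this, hz]
    refine sum_congr rfl fun m _ => ?_
    push_cast
    ring
  have h2 : ((∑ m ∈ S, w m * ‖u m‖ ^ 2 : ℝ) : ℂ) =
      ∑ i ∈ I, ∑ j ∈ I, (starRingEnd ℂ) (s i) * s j * G i j := by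
    have e1 : ((∑ m ∈ S, w m * ‖u m‖ ^ 2 : ℝ) : ℂ) =
        ∑ m ∈ S, (w m : ℂ) * (u m * (starRingEnd ℂ) (u m)) := by
      push_cast
      refine sum_congr rfl fun m _ => ?_
      rw [Complex.mul_conj, Complex.normSq_eq_norm_sq]
      push_cast
      ring
    rw [e1]
    have e2 : ∀ m ∈ S, (w m : ℂ) * (u m * (starRingEnd ℂ) (u m)) =
        ∑ i ∈ I, ∑ j ∈ I, (starRingEnd ℂ) (s i) * s j *
          ((w m : ℂ) * (φ i m * (starRingEnd ℂ) (φ j m))) := by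
      intro m _
      simp only [hu, map_sum, map_mul, Complex.conj_conj]
      rw [sum_mul_sum, mul_sum]
      refine sum_congr rfl fun i _ => ?_
      rw [mul_sum]
      refine sum_congr rfl fun j _ => ?_
      ring
    rw [sum_congr rfl e2, sum_comm]
    refine sum_congr rfl fun i _ => ?_
    rw [sum_comm]
    refine sum_congr rfl fun j _ => ?_
    rw [← mul_sum]
  have h3 : ∑ m ∈ S, w m * ‖u m‖ ^ 2 ≤ D * T := by
    have e1 : ∑ m ∈ S, w m * ‖u m‖ ^ 2 ≤ ∑ i ∈ I, ∑ j ∈ I, ‖s i‖ * ‖s j‖ * ‖G i j‖ := by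
      calc ∑ m ∈ S, w m * ‖u m‖ ^ 2 ≤ ‖((∑ m ∈ S, w m * ‖u m‖ ^ 2 : ℝ) : ℂ)‖ := by
            rw [Complex.norm_real]; exact le_abs_self _
        _ ≤ _ := by
            rw [h2]
            refine (norm_sum_le _ _).trans (sum_le_sum fun i _ => ?_)
            refine (norm_sum_le _ _).trans (sum_le_sum fun j _ => ?_)
            rw [norm_mul, norm_mul, Complex.norm_conj]
    have e2 : ∑ i ∈ I, ∑ j ∈ I, ‖s i‖ * ‖s j‖ * ‖G i j‖ ≤
        ∑ i ∈ I, ∑ j ∈ I, (‖s i‖ ^ 2 * ‖G i j‖ / 2 + ‖s j‖ ^ 2 * ‖G i j‖ / 2) := by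
      refine sum_le_sum fun i _ => sum_le_sum fun j _ => ?_
      have := mul_nonneg (sq_nonneg (‖s i‖ - ‖s j‖)) (norm_nonneg (G i j))
      nlinarith
    have e3 : ∑ i ∈ I, ∑ j ∈ I, ‖s i‖ ^ 2 * ‖G i j‖ / 2 ≤ D * T / 2 := by
      have : ∀ i ∈ I, ∑ j ∈ I, ‖s i‖ ^ 2 * ‖G i j‖ / 2 ≤ ‖s i‖ ^ 2 * D / 2 := by
        intro i hi
        rw [← sum_div, ← mul_sum]
        have := mul_le_mul_of_nonneg_left (hG i hi) (sq_nonneg ‖s i‖)
        simp only [hGdef]
        linarith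
      refine (sum_le_sum this).trans (le_of_eq ?_)
      rw [← sum_div, ← sum_mul, hT]
      ring
    have e4 : ∑ i ∈ I, ∑ j ∈ I, ‖s j‖ ^ 2 * ‖G i j‖ / 2 =
        ∑ i ∈ I, ∑ j ∈ I, ‖s i‖ ^ 2 * ‖G i j‖ / 2 := by
      rw [sum_comm]
      refine sum_congr rfl fun i _ => sum_congr rfl fun j _ => ?_
      rw [hGsym]
    simp only [sum_add_distrib] at e2
    linarith
  have h4 : 0 ≤ ∑ m ∈ S, w m * ‖(a m : ℂ) - u m / D‖ ^ 2 :=
    sum_nonneg fun m hm => mul_nonneg (hw m hm) (sq_nonneg _)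
  have h5 : ∀ m ∈ S, w m * ‖(a m : ℂ) - u m / D‖ ^ 2 =
      w m * a m ^ 2 - 2 / D * ((((w m * a m : ℝ) : ℂ) * u m).re) + 1 / D ^ 2 * (w m * ‖u m‖ ^ 2) := by
    intro m _
    have e1 : ‖(a m : ℂ) - u m / D‖ ^ 2 = a m ^ 2 - 2 * a m * (u m).re / D + ‖u m‖ ^ 2 / D ^ 2 := by
      rw [← Complex.normSq_eq_norm_sq, ← Complex.normSq_eq_norm_sq, Complex.normSq_apply,
        Complex.normSq_apply]
      have e2 : (u m / (D : ℂ)).re = (u m).re / D := Complex.div_ofReal_re _ _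
      have e3 : (u m / (D : ℂ)).im = (u m).im / D := Complex.div_ofReal_im _ _
      rw [Complex.sub_re, Complex.sub_im, e2, e3, Complex.ofReal_re, Complex.ofReal_im]
      field_simp
      ring
    rw [e1, Complex.re_ofReal_mul]
    field_simp
  rw [sum_congr rfl h5, sum_add_distrib, sum_sub_distrib, ← mul_sum, ← mul_sum, ← Complex.re_sum,
    h1, Complex.ofReal_re] at h4
  have h6 : ∑ m ∈ S, w m * a m ^ 2 ≤ ∑ m ∈ S, w m := by
    refine sum_le_sum fun m hm => ?_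
    have e1 : a m ^ 2 ≤ 1 := by
      rw [← sq_abs]
      have := ha m hm
      have := abs_nonneg (a m)
      nlinarith
    nlinarith [hw m hm]
  have h7 : 1 / D ^ 2 * ∑ m ∈ S, w m * ‖u m‖ ^ 2 ≤ T / D := by
    calc 1 / D ^ 2 * ∑ m ∈ S, w m * ‖u m‖ ^ 2 ≤ 1 / D ^ 2 * (D * T) :=
          mul_le_mul_of_nonneg_left h3 (by positivity)
      _ = T / D := by field_simp
  have h8 : T / D ≤ ∑ m ∈ S, w m := by
    have : 2 / D * T = 2 * (T / D) := by ring
    linarith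
  rwa [div_le_iff₀ hD] at h8

theorem chL {D e : ℕ} (κ : DirichletCharacter ℂ e) (h : e ∣ D) {m : ℕ} (hm : m.Coprime D) :
    changeLevel h κ (m : ZMod D) = κ (m : ZMod e) := by
  have h2 := changeLevel_eq_cast_of_dvd' κ h (a := (m : ℤ))
    (by exact_mod_cast Nat.isCoprime_iff_coprime.mpr hm)
  push_cast at h2
  rw [h2]

/-- a primitive character is determined by its values at the numbers coprime to `N` -/
theorem uniq {q q' N : ℕ} (hq : 0 < q) (hq' : 0 < q') (hN : 0 < N) {ψ : DirichletCharacter ℂ q}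
    {ψ' : DirichletCharacter ℂ q'} (hψ : ψ.IsPrimitive) (hψ' : ψ'.IsPrimitive)
    (h : ∀ n : ℕ, n.Coprime (q * q' * N) → ψ (n : ZMod q) = ψ' (n : ZMod q')) :
    (⟨q, ψ⟩ : Σ q : ℕ, DirichletCharacter ℂ q) = ⟨q', ψ'⟩ := by
  have hpos : 0 < q * q' * N := by positivity
  have : NeZero (q * q' * N) := ⟨hpos.ne'⟩
  have d1 : q ∣ q * q' * N := ⟨q' * N, by ring⟩
  have d2 : q' ∣ q * q' * N := ⟨q * N, by ring⟩
  have h1 : changeLevel d1 ψ = changeLevel d2 ψ' := by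
    ext u
    obtain ⟨n, hn, hu⟩ : ∃ n : ℕ, n.Coprime (q * q' * N) ∧
        (u : ZMod (q * q' * N)) = (n : ZMod (q * q' * N)) :=
      ⟨(u : ZMod (q * q' * N)).val, ZMod.val_coe_unit_coprime u, (ZMod.natCast_zmod_val _).symm⟩
    rw [hu, chL _ _ hn, chL _ _ hn, h n hn]
  have h2 := conductor_changeLevel ψ d1
  have h3 := conductor_changeLevel ψ' d2
  rw [h1, h3] at h2
  rw [isPrimitive_def] at hψ hψ'
  have h4 : q = q' := by rw [← hψ, ← hψ', h2]
  subst h4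
  have h5 : ψ = ψ' := changeLevel_injective d1 h1
  rw [h5]

/-- the product `ψ conj(ψ')` -/
noncomputable def Th {q q' : ℕ} (ψ : DirichletCharacter ℂ q) (ψ' : DirichletCharacter ℂ q') :
    DirichletCharacter ℂ (q * q') :=
  changeLevel (dvd_mul_right q q') ψ * (changeLevel (dvd_mul_left q' q) ψ')⁻¹

theorem Th_val {q q' : ℕ} (hq : 0 < q) (hq' : 0 < q') (ψ : DirichletCharacter ℂ q)
    (ψ' : DirichletCharacter ℂ q')
    {n : ℕ} (hn : n.Coprime (q * q')) :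
    (Th ψ ψ').primitiveCharacter (n : ZMod (Th ψ ψ').conductor) =
      ψ (n : ZMod q) * (starRingEnd ℂ) (ψ' (n : ZMod q')) := by
  have hpos : 0 < q * q' := by positivity
  have : NeZero (q * q') := ⟨hpos.ne'⟩
  have hc : IsCoprime (n : ℤ) ((q * q' : ℕ) : ℤ) := Nat.isCoprime_iff_coprime.2 hn
  have h1 := primitiveCharacter_apply_of_isCoprime (Th ψ ψ') hc
  rw [Int.cast_natCast, Int.cast_natCast] at h1
  rw [h1]
  unfold Th
  rw [MulChar.mul_apply, chL _ _ hn, ← MulChar.star_apply', chL _ _ hn]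
  rfl

theorem Th_ne_one {q q' : ℕ} (hq : 0 < q) (hq' : 0 < q') {ψ : DirichletCharacter ℂ q}
    {ψ' : DirichletCharacter ℂ q'} (hψ : ψ.IsPrimitive) (hψ' : ψ'.IsPrimitive)
    (hne : (⟨q, ψ⟩ : Σ q : ℕ, DirichletCharacter ℂ q) ≠ ⟨q', ψ'⟩) : Th ψ ψ' ≠ 1 := by
  intro h
  apply hne
  refine uniq hq hq' one_pos hψ hψ' fun n hn => ?_
  rw [mul_one] at hn
  unfold Th at h
  rw [mul_inv_eq_one] at h
  rw [← chL ψ (dvd_mul_right q q') hn, h, chL _ _ hn]

theorem Th_cond {q q' : ℕ} (hq : 0 < q) (hq' : 0 < q') {ψ : DirichletCharacter ℂ q}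
    {ψ' : DirichletCharacter ℂ q'} (hψ : ψ.IsPrimitive) (hψ' : ψ'.IsPrimitive)
    (hne : (⟨q, ψ⟩ : Σ q : ℕ, DirichletCharacter ℂ q) ≠ ⟨q', ψ'⟩) :
    2 ≤ (Th ψ ψ').conductor ∧ (Th ψ ψ').conductor ≤ q * q' := by
  have hpos : 0 < q * q' := by positivity
  have : NeZero (q * q') := ⟨hpos.ne'⟩
  have h1 : (Th ψ ψ').conductor ≠ 0 := conductor_ne_zero _
  have h2 : (Th ψ ψ').conductor ≠ 1 :=
    fun h => Th_ne_one hq hq' hψ hψ' hne (eq_one_iff_conductor_eq_one.2 h)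
  have h3 : (Th ψ ψ').conductor ≤ q * q' := Nat.le_of_dvd hpos (conductor_dvd_level _)
  omega

theorem th_nonneg (χ : DirichletCharacter ℂ f) (Q : ℕ) (m : ℤ) : 0 ≤ th χ Q m := by
  classical
  unfold th
  split_ifs with h
  · apply Real.log_nonneg
    have : (1 : ℤ) ≤ m := h.1
    exact_mod_cast this
  · exact le_rfl

theorem th_prime (χ : DirichletCharacter ℂ f) (Q : ℕ) (m : ℕ) (h : th χ Q (m : ℤ) ≠ 0) :
    m.Prime ∧ Q < m := by
  classical
  unfold th at h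
  split_ifs at h with h1
  · have h2 := h1.2
    unfold PQ at h2
    rw [mem_filter, mem_Ioc, Int.toNat_natCast] at h2
    exact ⟨h2.2.1, h2.1.1⟩
  · exact absurd rfl h

theorem entry (χ : DirichletCharacter ℂ f) (Q x : ℕ) {q q' : ℕ} (hq : 0 < q) (hq' : 0 < q')
    (hQ : q * q' ≤ Q) (ψ : DirichletCharacter ℂ q) (ψ' : DirichletCharacter ℂ q') :
    ∑ m ∈ Ioc Q x, (th χ Q m : ℂ) * (ψ (m : ZMod q) * (starRingEnd ℂ) (ψ' (m : ZMod q'))) =
      ∑ m ∈ Ioc Q x, (th χ Q m : ℂ) *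
        (Th ψ ψ').primitiveCharacter (m : ZMod (Th ψ ψ').conductor) := by
  refine sum_congr rfl fun m _ => ?_
  by_cases h : th χ Q (m : ℤ) = 0
  · rw [h]; simp
  · obtain ⟨h1, h2⟩ := th_prime χ Q m h
    have hpos : 0 < q * q' := by positivity
    have h3 : m.Coprime (q * q') := by
      rw [Nat.Prime.coprime_iff_not_dvd h1]
      intro hd
      have := Nat.le_of_dvd hpos hd
      omega
    rw [Th_val hq hq' ψ ψ' h3]

/-- the exceptional pairs -/
def bad (χ : DirichletCharacter ℂ f) (i j : Σ q : ℕ, DirichletCharacter ℂ q) : Prop :=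
  ∀ n : ℕ, (Th i.2 j.2).primitiveCharacter (n : ZMod (Th i.2 j.2).conductor) = χ (n : ZMod f)

theorem bad_unique (χ : DirichletCharacter ℂ f) (i j j' : Σ q : ℕ, DirichletCharacter ℂ q)
    (hi : 0 < i.1) (hj : 0 < j.1) (hj' : 0 < j'.1) (pj : j.2.IsPrimitive) (pj' : j'.2.IsPrimitive)
    (h : bad χ i j) (h' : bad χ i j') : j = j' := by
  obtain ⟨q, ψ⟩ := i
  obtain ⟨q₁, ψ₁⟩ := j
  obtain ⟨q₂, ψ₂⟩ := j'
  simp only at hi hj hj' pj pj'
  refine uniq hj hj' hi pj pj' fun n hn => ?_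
  have c1 : n.Coprime (q * q₁) := Nat.Coprime.of_dvd_right ⟨q₂, by ring⟩ hn
  have c2 : n.Coprime (q * q₂) := Nat.Coprime.of_dvd_right ⟨q₁, by ring⟩ hn
  have e1 := h n
  have e2 := h' n
  simp only at e1 e2
  rw [Th_val hi hj ψ ψ₁ c1] at e1
  rw [Th_val hi hj' ψ ψ₂ c2] at e2
  rw [← e2] at e1
  have hne : ψ (n : ZMod q) ≠ 0 :=
    (IsUnit.map ψ ((ZMod.isUnit_iff_coprime n q).2
      (Nat.Coprime.of_dvd_right ⟨q₁, rfl⟩ c1))).ne_zero
  have e3 := mul_left_cancel₀ hne e1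
  exact (starRingEnd ℂ).injective e3

open scoped Classical in
theorem card_prim_le (q : ℕ) (hq : 1 ≤ q) :
    ((univ : Finset (DirichletCharacter ℂ q)).filter (fun ψ => ψ.IsPrimitive)).card ≤ q := by
  have : NeZero q := ⟨by omega⟩
  refine (card_filter_le _ _).trans ?_
  have h4 := DirichletCharacter.card_eq_totient_of_hasEnoughRootsOfUnity ℂ q
  rw [card_univ, ← Nat.card_eq_fintype_card, h4]
  exact Nat.totient_le q

open scoped Classical in
/-- the index set -/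
noncomputable def II (B Q : ℕ) : Finset (Σ q : ℕ, DirichletCharacter ℂ q) :=
  ((Icc 1 Q).filter (fun q : ℕ => (q : ℝ) ≤ Real.log Q ^ B)).sigma
    (fun q => (univ : Finset (DirichletCharacter ℂ q)).filter (fun ψ => ψ.IsPrimitive))

theorem mem_II {B Q : ℕ} {i : Σ q : ℕ, DirichletCharacter ℂ q} (h : i ∈ II B Q) :
    0 < i.1 ∧ (i.1 : ℝ) ≤ Real.log Q ^ B ∧ i.2.IsPrimitive := by
  classical
  unfold II at h
  rw [mem_sigma, mem_filter, mem_filter, mem_Icc] at h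
  exact ⟨h.1.1.1, h.1.2, h.2.2⟩

theorem card_II (B Q : ℕ) (hL : 0 ≤ Real.log Q ^ B) : ((II B Q).card : ℝ) ≤ Real.log Q ^ (2 * B) := by
  classical
  unfold II
  rw [card_sigma]
  push_cast
  have h1 : ∀ q ∈ (Icc 1 Q).filter (fun q : ℕ => (q : ℝ) ≤ Real.log Q ^ B),
      ((((univ : Finset (DirichletCharacter ℂ q)).filter (fun ψ => ψ.IsPrimitive)).card : ℕ) : ℝ) ≤
        Real.log Q ^ B := by
    intro q hq
    rw [mem_filter, mem_Icc] at hq
    refine le_trans ?_ hq.2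
    have := card_prim_le q hq.1.1
    exact_mod_cast this
  refine (sum_le_sum h1).trans ?_
  rw [sum_const, nsmul_eq_mul, two_mul, pow_add]
  refine mul_le_mul_of_nonneg_right ?_ hL
  have h2 : ((Icc 1 Q).filter (fun q : ℕ => (q : ℝ) ≤ Real.log Q ^ B)) ⊆
      Icc 1 ⌊Real.log Q ^ B⌋₊ := by
    intro q hq
    rw [mem_filter, mem_Icc] at hq
    rw [mem_Icc]
    exact ⟨hq.1.1, Nat.le_floor hq.2⟩
  have h3 := card_le_card h2
  rw [Nat.card_Icc, Nat.add_sub_cancel] at h3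
  exact (Nat.cast_le.2 h3).trans (Nat.floor_le hL)

theorem growth (B : ℕ) : ∃ Q₀ : ℕ, ∀ Q : ℕ, Q₀ ≤ Q → Real.log Q ^ (2 * B) ≤ Q ∧ 1 ≤ Real.log Q := by
  have h1 := (Real.isLittleO_pow_log_id_atTop (n := 2 * B)).bound (c := 1) one_pos
  have h2 := (tendsto_natCast_atTop_atTop (R := ℝ)).eventually h1
  have h3 := (Real.tendsto_log_atTop.comp (tendsto_natCast_atTop_atTop (R := ℝ))).eventually_ge_atTop 1
  obtain ⟨Q₀, hQ₀⟩ := Filter.eventually_atTop.1 (h2.and h3)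
  refine ⟨Q₀, fun Q hQ => ?_⟩
  obtain ⟨e1, e2⟩ := hQ₀ Q hQ
  refine ⟨?_, e2⟩
  simp only [id, one_mul, Real.norm_eq_abs, Nat.abs_cast] at e1
  exact (le_abs_self _).trans e1

theorem bes {t c : ℤ} {f : ℕ} {χ : DirichletCharacter ℂ f} (_hF : Fd t c f χ) (h : S_SWC χ) :
    S_BES χ := by
  classical
  intro B
  obtain ⟨C₁, Q₁, h1⟩ := h.1 (2 * B) (2 * B)
  obtain ⟨C₂, Q₂, h2⟩ := h.2 0
  obtain ⟨Q₃, h3⟩ := growth B
  set C₃ : ℝ := |C₂| + 1 with hC₃
  have hC₃1 : 1 ≤ C₃ := by have := abs_nonneg C₂; linarith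
  refine ⟨C₃ * (|C₁| + 2 * C₃), max (max Q₁ Q₂) (max Q₃ 1), fun Q hQ a ha x hx hx2 => ?_⟩
  have hQ1 : Q₁ ≤ Q := ((le_max_left _ _).trans (le_max_left _ _)).trans hQ
  have hQ2 : Q₂ ≤ Q := ((le_max_right _ _).trans (le_max_left _ _)).trans hQ
  have hQ3 : Q₃ ≤ Q := ((le_max_left _ _).trans (le_max_right _ _)).trans hQ
  have hQ4 : 1 ≤ Q := ((le_max_right _ _).trans (le_max_right _ _)).trans hQ
  obtain ⟨g1, g2⟩ := h3 Q hQ3
  have hQpos : (0 : ℝ) < Q := by exact_mod_cast hQ4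
  have hLB : 0 ≤ Real.log Q ^ B := by positivity
  have hLpos : 0 < Real.log Q ^ (2 * B) := by positivity
  have hW : ∑ m ∈ Ioc Q x, th χ Q m ≤ C₃ * Q := by
    have e1 := (abs_le.1 (h2 Q hQ2 x hx hx2)).2
    rw [pow_zero, div_one] at e1
    have e2 : (x : ℝ) ≤ 2 * Q := by exact_mod_cast hx2
    have e3 : C₂ * Q ≤ |C₂| * Q := mul_le_mul_of_nonneg_right (le_abs_self _) hQpos.le
    rw [hC₃]
    nlinarith
  have hD : 0 < (|C₁| + 2 * C₃) * Q := by have := abs_nonneg C₁; positivity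
  -- rewriting
  have hre : ∑ q ∈ (Icc 1 Q).filter (fun q : ℕ => (q : ℝ) ≤ Real.log Q ^ B),
      ∑ ψ ∈ (univ : Finset (DirichletCharacter ℂ q)).filter (fun ψ => ψ.IsPrimitive),
      ‖∑ m ∈ Ioc Q x, (ta χ a Q m : ℂ) * ψ (m : ZMod q)‖ ^ 2 =
      ∑ i ∈ II B Q, ‖∑ m ∈ Ioc Q x, ((th χ Q m * a m : ℝ) : ℂ) * i.2 (m : ZMod i.1)‖ ^ 2 := by
    unfold II
    rw [sum_sigma]
    refine sum_congr rfl fun q _ => sum_congr rfl fun ψ _ => ?_
    congr 2
    refine sum_congr rfl fun m _ => ?_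
    unfold ta
    rw [Int.toNat_natCast, mul_comm (a m)]
  rw [hre]
  have hfin := gram (II B Q) (Ioc Q x) (fun m => th χ Q m) a
    (fun (i : Σ q : ℕ, DirichletCharacter ℂ q) (m : ℕ) => i.2 (m : ZMod i.1))
    (fun m _ => th_nonneg χ Q m) (fun m _ => ha m) ((|C₁| + 2 * C₃) * Q) hD ?_
  · refine hfin.trans ?_
    calc (∑ m ∈ Ioc Q x, th χ Q m) * ((|C₁| + 2 * C₃) * Q) ≤ C₃ * Q * ((|C₁| + 2 * C₃) * Q) :=
          mul_le_mul_of_nonneg_right hW hD.le
      _ = _ := by ring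
  · intro i hi
    obtain ⟨i1, i2, i3⟩ := mem_II hi
    have key : ∀ j ∈ II B Q, ‖∑ m ∈ Ioc Q x, ((th χ Q m : ℝ) : ℂ) *
        (i.2 (m : ZMod i.1) * (starRingEnd ℂ) (j.2 (m : ZMod j.1)))‖ ≤
        |C₁| * Q / Real.log Q ^ (2 * B) + ((if j = i then C₃ * Q else 0) +
          (if bad χ i j then C₃ * Q else 0)) := by
      intro j hj
      obtain ⟨j1, j2, j3⟩ := mem_II hj
      have htriv : ‖∑ m ∈ Ioc Q x, ((th χ Q m : ℝ) : ℂ) *
          (i.2 (m : ZMod i.1) * (starRingEnd ℂ) (j.2 (m : ZMod j.1)))‖ ≤ C₃ * Q := by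
        refine (norm_sum_le _ _).trans (le_trans (sum_le_sum fun m _ => ?_) hW)
        rw [norm_mul, norm_mul, Complex.norm_conj, Complex.norm_real, Real.norm_eq_abs,
          abs_of_nonneg (th_nonneg χ Q m)]
        have n1 := DirichletCharacter.norm_le_one i.2 (m : ZMod i.1)
        have n2 := DirichletCharacter.norm_le_one j.2 (m : ZMod j.1)
        have n3 : ‖i.2 (m : ZMod i.1)‖ * ‖j.2 (m : ZMod j.1)‖ ≤ 1 :=
          mul_le_one₀ n1 (norm_nonneg _) n2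
        calc th χ Q m * (‖i.2 (m : ZMod i.1)‖ * ‖j.2 (m : ZMod j.1)‖) ≤ th χ Q m * 1 :=
              mul_le_mul_of_nonneg_left n3 (th_nonneg χ Q m)
          _ = _ := mul_one _
      have p1 : 0 ≤ |C₁| * Q / Real.log Q ^ (2 * B) := by positivity
      have p2 : 0 ≤ C₃ * Q := by positivity
      by_cases hji : j = i
      · rw [if_pos hji]
        have : 0 ≤ (if bad χ i j then C₃ * (Q : ℝ) else 0) := by split_ifs <;> linarith
        linarith
      · rw [if_neg hji]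
        by_cases hb : bad χ i j
        · rw [if_pos hb]
          linarith
        · rw [if_neg hb, add_zero, add_zero]
          have hij : (⟨i.1, i.2⟩ : Σ q : ℕ, DirichletCharacter ℂ q) ≠ ⟨j.1, j.2⟩ :=
            fun e => hji e.symm
          obtain ⟨c1, c2⟩ := Th_cond i1 j1 i3 j3 hij
          have c3 : ((i.1 * j.1 : ℕ) : ℝ) ≤ Real.log Q ^ (2 * B) := by
            push_cast
            rw [two_mul, pow_add]
            exact mul_le_mul i2 j2 (Nat.cast_nonneg _) hLB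
          have c4 : i.1 * j.1 ≤ Q := by exact_mod_cast c3.trans g1
          rw [entry χ Q x i1 j1 c4 i.2 j.2]
          unfold bad at hb
          push Not at hb
          have := h1 Q hQ1 x hx hx2 (Th i.2 j.2).conductor c1
            (le_trans (by exact_mod_cast c2) c3) (Th i.2 j.2).primitiveCharacter
            (Th i.2 j.2).primitiveCharacter_isPrimitive hb
          refine this.trans ?_
          have hC := le_abs_self C₁
          gcongr
    refine (sum_le_sum key).trans ?_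
    rw [sum_add_distrib, sum_add_distrib, sum_const, nsmul_eq_mul]
    have s1 : ((II B Q).card : ℝ) * (|C₁| * Q / Real.log Q ^ (2 * B)) ≤ |C₁| * Q := by
      calc ((II B Q).card : ℝ) * (|C₁| * Q / Real.log Q ^ (2 * B)) ≤
            Real.log Q ^ (2 * B) * (|C₁| * Q / Real.log Q ^ (2 * B)) :=
            mul_le_mul_of_nonneg_right (card_II B Q hLB) (by positivity)
        _ = |C₁| * Q := by field_simp
    have s2 : ∑ j ∈ II B Q, (if j = i then C₃ * (Q : ℝ) else 0) ≤ C₃ * Q := by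
      rw [sum_ite_eq', if_pos hi]
    have s3 : ∑ j ∈ II B Q, (if bad χ i j then C₃ * (Q : ℝ) else 0) ≤ C₃ * Q := by
      rw [← sum_filter, sum_const, nsmul_eq_mul]
      have s4 : ((II B Q).filter (fun j => bad χ i j)).card ≤ 1 := by
        rw [card_le_one]
        intro j hj j' hj'
        rw [mem_filter] at hj hj'
        obtain ⟨j1, _, j3⟩ := mem_II hj.1
        obtain ⟨k1, _, k3⟩ := mem_II hj'.1
        exact bad_unique χ i j j' i1 j1 k1 j3 k3 hj.2 hj'.2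
      have s5 : ((((II B Q).filter (fun j => bad χ i j)).card : ℕ) : ℝ) ≤ 1 := by exact_mod_cast s4
      calc _ ≤ 1 * (C₃ * (Q : ℝ)) := mul_le_mul_of_nonneg_right s5 (by positivity)
        _ = _ := one_mul _
    nlinarith

end Pool.Agent.N79.ELbes

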