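import Pool.Agent.N639.FS.Stm

/-!
# FS/C3: the Poisson law from the binomial moments (helper79)
-/

set_option autoImplicit false

namespace Pool.Agent.N79.FSC3

open Finset Real MeasureTheory Pool.Agent.Y933.KD Pool.Agent.N639.FS

/-! ### Bonferroni inequality -/

lemma choose_split (k Y i : ℕ) : (k + Y).choose (k + i) * (k + i).choose k =
    (k + Y).choose k * Y.choose i := by
  rw [Nat.choose_mul (Nat.le_add_right k i)]
  congr 2 <;> omega

/-- the alternating sum -/
noncomputable def alt (k T : ℕ) (c : ℕ → ℝ) : ℝ :=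
  ∑ i ∈ range (T + 1), (-1) ^ i * (((k + i).choose k : ℕ) : ℝ) * c (k + i)

lemma bonf (X k T : ℕ) :
    |(if X = k then (1 : ℝ) else 0) - alt k T (fun j => ((X.choose j : ℕ) : ℝ))| ≤
      (((k + T).choose k : ℕ) : ℝ) * ((X.choose (k + T) : ℕ) : ℝ) := by
  have hR : (0 : ℝ) ≤ (((k + T).choose k : ℕ) : ℝ) * ((X.choose (k + T) : ℕ) : ℝ) := by positivity
  rcases lt_or_ge X k with h | h
  · rw [if_neg (by omega)]
    have : alt k T (fun j => ((X.choose j : ℕ) : ℝ)) = 0 := by
      unfold alt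
      refine Finset.sum_eq_zero fun i _ => ?_
      show (-1 : ℝ) ^ i * (((k + i).choose k : ℕ) : ℝ) * ((X.choose (k + i) : ℕ) : ℝ) = 0
      rw [Nat.choose_eq_zero_of_lt (by omega : X < k + i)]
      simp
    rw [this, sub_zero, abs_zero]
    exact hR
  · obtain ⟨Y, rfl⟩ := Nat.exists_eq_add_of_le h
    have e1 : alt k T (fun j => (((k + Y).choose j : ℕ) : ℝ)) =
        (((k + Y).choose k : ℕ) : ℝ) * ∑ i ∈ range (T + 1), (-1) ^ i * ((Y.choose i : ℕ) : ℝ) := by
      unfold alt
      rw [Finset.mul_sum]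
      refine Finset.sum_congr rfl fun i _ => ?_
      have h1 : (((k + Y).choose (k + i) : ℕ) : ℝ) * (((k + i).choose k : ℕ) : ℝ) =
          (((k + Y).choose k : ℕ) : ℝ) * ((Y.choose i : ℕ) : ℝ) := by
        exact_mod_cast choose_split k Y i
      calc (-1 : ℝ) ^ i * (((k + i).choose k : ℕ) : ℝ) * (((k + Y).choose (k + i) : ℕ) : ℝ) =
          (-1) ^ i * ((((k + Y).choose (k + i) : ℕ) : ℝ) * (((k + i).choose k : ℕ) : ℝ)) := by ring
        _ = _ := by rw [h1]; ring
    rw [e1]
    cases Y with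
    | zero =>
      have : ∑ i ∈ range (T + 1), (-1 : ℝ) ^ i * ((Nat.choose 0 i : ℕ) : ℝ) = 1 := by
        rw [Finset.sum_range_succ']
        simp
      rw [this, if_pos (by omega)]
      simp only [Nat.add_zero, Nat.choose_self, Nat.cast_one, mul_one, sub_self, abs_zero]
      positivity
    | succ Y =>
      have h2 : ∑ i ∈ range (T + 1), (-1 : ℝ) ^ i * (((Y + 1).choose i : ℕ) : ℝ) =
          (-1) ^ T * ((Y.choose T : ℕ) : ℝ) := by
        have := Int.alternating_sum_range_choose_eq_choose (n := Y) (m := T)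
        exact_mod_cast this
      rw [h2, if_neg (by omega), zero_sub, abs_neg, abs_mul, abs_mul, abs_pow, abs_neg, abs_one,
        one_pow, one_mul, Nat.abs_cast, Nat.abs_cast]
      have h3 := choose_split k (Y + 1) T
      have h4 : Y.choose T ≤ (Y + 1).choose T := Nat.choose_le_choose T (Nat.le_succ Y)
      have h5 : (k + (Y + 1)).choose k * Y.choose T ≤
          (k + T).choose k * (k + (Y + 1)).choose (k + T) := by
        rw [mul_comm ((k + T).choose k), h3]
        exact Nat.mul_le_mul_left _ h4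
      exact_mod_cast h5

/-! ### the Poisson series -/

lemma fact_split (k i : ℕ) (m : ℝ) : (((k + i).choose k : ℕ) : ℝ) *
    (m ^ (k + i) / (k + i).factorial) = m ^ k / k.factorial * (m ^ i / i.factorial) := by
  have h1 := Nat.add_choose_mul_factorial_mul_factorial k i
  have h2 : (((k + i).choose k : ℕ) : ℝ) * k.factorial * i.factorial = (k + i).factorial := by
    rw [← Nat.choose_symm_add] at h1
    exact_mod_cast h1
  have h3 : ((k + i).factorial : ℝ) ≠ 0 := by positivity
  have h4 : (k.factorial : ℝ) ≠ 0 := by positivity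
  have h5 : (i.factorial : ℝ) ≠ 0 := by positivity
  rw [div_mul_div_comm, mul_div_assoc', div_eq_div_iff h3 (mul_ne_zero h4 h5), ← h2, pow_add]
  ring

lemma alt_pois (k T : ℕ) (m : ℝ) : alt k T (fun j => m ^ j / j.factorial) =
    m ^ k / k.factorial * ∑ i ∈ range (T + 1), (-m) ^ i / i.factorial := by
  unfold alt
  rw [Finset.mul_sum]
  refine Finset.sum_congr rfl fun i _ => ?_
  rw [mul_assoc, fact_split, neg_pow]
  ring

lemma exp_tail (m : ℝ) (hm : 0 ≤ m) (n : ℕ) :
    |exp (-m) - ∑ i ∈ range n, (-m) ^ i / i.factorial| ≤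
      exp m - ∑ i ∈ range n, m ^ i / i.factorial := by
  have h := Complex.norm_exp_sub_sum_le_exp_norm_sub_sum ((-m : ℝ) : ℂ) n
  have e1 : Complex.exp ((-m : ℝ) : ℂ) - ∑ i ∈ range n, ((-m : ℝ) : ℂ) ^ i / i.factorial =
      ((exp (-m) - ∑ i ∈ range n, (-m) ^ i / i.factorial : ℝ) : ℂ) := by
    push_cast
    rfl
  rw [e1, Complex.norm_real, Complex.norm_real, norm_neg, Real.norm_eq_abs, Real.norm_eq_abs,
    abs_of_nonneg hm] at h
  exact h

lemma tail_mono (m R : ℝ) (hm : 0 ≤ m) (hR : m ≤ R) (n : ℕ) :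
    exp m - ∑ i ∈ range n, m ^ i / i.factorial ≤ exp R - ∑ i ∈ range n, R ^ i / i.factorial := by
  have hs : ∀ x : ℝ, Summable fun i : ℕ => x ^ i / i.factorial := fun x =>
    Real.summable_pow_div_factorial x
  have h1 : ∀ x : ℝ, exp x - ∑ i ∈ range n, x ^ i / i.factorial =
      ∑' i : ℕ, x ^ (i + n) / (i + n).factorial := by
    intro x
    have h2 := (hs x).sum_add_tsum_nat_add n
    have h3 : exp x = ∑' i : ℕ, x ^ i / i.factorial := by
      rw [Real.exp_eq_exp_ℝ, NormedSpace.exp_eq_tsum_div]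
    rw [h3, ← h2]
    ring
  rw [h1, h1]
  refine Summable.tsum_le_tsum (fun i => ?_) ((summable_nat_add_iff n).2 (hs m))
    ((summable_nat_add_iff n).2 (hs R))
  gcongr

lemma tail_tendsto (R : ℝ) : Filter.Tendsto
    (fun n : ℕ => exp R - ∑ i ∈ range n, R ^ i / i.factorial) Filter.atTop (nhds 0) := by
  have hs := Real.summable_pow_div_factorial R
  have h1 := hs.hasSum.tendsto_sum_nat
  have h3 : exp R = ∑' i : ℕ, R ^ i / i.factorial := by
    rw [Real.exp_eq_exp_ℝ, NormedSpace.exp_eq_tsum_div]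
  rw [← h3] at h1
  have h2 := h1.const_sub (exp R)
  rw [sub_self] at h2
  exact h2

/-- choice of the length of the alternating sum -/
lemma choose_T (k : ℕ) (R e : ℝ) (_hR : 0 ≤ R) (he : 0 < e) : ∃ T : ℕ,
    R ^ k / k.factorial * (R ^ T / T.factorial) ≤ e ∧
    R ^ k / k.factorial * (exp R - ∑ i ∈ range (T + 1), R ^ i / i.factorial) ≤ e := by
  have h1 : Filter.Tendsto (fun T : ℕ => R ^ k / k.factorial * (R ^ T / T.factorial))
      Filter.atTop (nhds 0) := by
    have := (Real.summable_pow_div_factorial R).tendsto_atTop_zero.const_mul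
      (R ^ k / (k.factorial : ℝ))
    rwa [mul_zero] at this
  have h2 : Filter.Tendsto (fun T : ℕ => R ^ k / k.factorial *
      (exp R - ∑ i ∈ range (T + 1), R ^ i / i.factorial)) Filter.atTop (nhds 0) := by
    have := ((Filter.tendsto_add_atTop_iff_nat 1).2 (tail_tendsto R)).const_mul
      (R ^ k / (k.factorial : ℝ))
    rwa [mul_zero] at this
  obtain ⟨T, hT⟩ := ((h1.eventually (gt_mem_nhds he)).and (h2.eventually (gt_mem_nhds he))).exists
  exact ⟨T, hT.1.le, hT.2.le⟩

/-! ### the number of occurrences -/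

/-- number of the places with a word in `W` -/
noncomputable def XX (b w N : ℕ) (W : Finset ℕ) (x : ℝ) : ℕ :=
  ((range N).filter (fun n => wd b w n x ∈ W)).card

lemma XX_le (b w N : ℕ) (W : Finset ℕ) (x : ℝ) : XX b w N W x ≤ N := by
  unfold XX
  refine (card_filter_le _ _).trans ?_
  rw [card_range]

lemma measurable_XX (b w N : ℕ) (W : Finset ℕ) : Measurable (XX b w N W) := by
  have e : XX b w N W = fun x => ∑ n ∈ range N, if wd b w n x ∈ W then 1 else 0 := by
    funext x
    unfold XX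
    rw [card_filter]
  rw [e]
  refine Finset.measurable_fun_sum _ fun n _ => ?_
  exact (measurable_of_countable (fun v : ℕ => if v ∈ W then 1 else 0)).comp (measurable_wd b w n)

lemma card_inj (T : Finset ℕ) (j : ℕ) :
    ((Fintype.piFinset (fun _ : Fin j => T)).filter Function.Injective).card =
      T.card.descFactorial j := by
  classical
  have h1 : Fintype.card (Fin j ↪ T) = T.card.descFactorial j := by
    rw [Fintype.card_embedding_eq, Fintype.card_fin, Fintype.card_coe]
  rw [← h1, ← card_univ]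
  symm
  refine card_bij (fun f _ i => ((f i : T) : ℕ)) ?_ ?_ ?_
  · intro f _
    rw [mem_filter, Fintype.mem_piFinset]
    exact ⟨fun i => (f i).2, fun a c h => f.injective (Subtype.ext h)⟩
  · intro f _ g _ h
    ext i
    exact congrFun h i
  · intro n hn
    rw [mem_filter, Fintype.mem_piFinset] at hn
    exact ⟨⟨fun i => ⟨n i, hn.1 i⟩, fun a c h => hn.2 (congrArg Subtype.val h)⟩, mem_univ _, rfl⟩

open Classical in
/-- the test function -/
noncomputable def FF (W : Finset ℕ) (j : ℕ) (n c : Fin j → ℕ) : ℝ :=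
  if Function.Injective n ∧ ∀ i, c i ∈ W then 1 else 0

lemma FF_le (W : Finset ℕ) (j : ℕ) (n c : Fin j → ℕ) : |FF W j n c| ≤ 1 := by
  unfold FF
  split_ifs <;> simp

lemma sum_FF (b w N : ℕ) (W : Finset ℕ) (j : ℕ) (x : ℝ) :
    ∑ n ∈ Fintype.piFinset (fun _ : Fin j => range N), FF W j n (fun i => wd b w (n i) x) =
      (j.factorial : ℝ) * (((XX b w N W x).choose j : ℕ) : ℝ) := by
  classical
  unfold FF
  rw [← Finset.sum_filter, sum_const, nsmul_eq_mul, mul_one]
  have e : (Fintype.piFinset (fun _ : Fin j => range N)).filter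
      (fun n => Function.Injective n ∧ ∀ i, wd b w (n i) x ∈ W) =
      (Fintype.piFinset (fun _ : Fin j => (range N).filter (fun n => wd b w n x ∈ W))).filter
        Function.Injective := by
    ext n
    simp only [mem_filter, Fintype.mem_piFinset]
    constructor
    · rintro ⟨h1, h2, h3⟩
      exact ⟨fun i => ⟨h1 i, h3 i⟩, h2⟩
    · rintro ⟨h1, h2⟩
      exact ⟨fun i => (h1 i).1, h2, fun i => (h1 i).2⟩
  rw [e, card_inj, Nat.descFactorial_eq_factorial_mul_choose]
  push_cast
  rfl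

lemma integrable_ch (P : Measure ℝ) [IsProbabilityMeasure P] (b w N : ℕ) (W : Finset ℕ) (j : ℕ) :
    Integrable (fun x => (((XX b w N W x).choose j : ℕ) : ℝ)) P := by
  have hm : Measurable (fun x => (((XX b w N W x).choose j : ℕ) : ℝ)) :=
    (measurable_of_countable (fun v : ℕ => ((v.choose j : ℕ) : ℝ))).comp (measurable_XX b w N W)
  refine Integrable.of_bound hm.aestronglyMeasurable ((N.choose j : ℕ) : ℝ)
    (Filter.Eventually.of_forall fun x => ?_)
  rw [Real.norm_eq_abs, Nat.abs_cast]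
  exact_mod_cast Nat.choose_le_choose j (XX_le b w N W x)

/-- the Bonferroni inequality for the law of `X` -/
lemma bonf_int (P : Measure ℝ) [IsProbabilityMeasure P] (b w N : ℕ) (W : Finset ℕ) (k T : ℕ) :
    |P.real {x | XX b w N W x = k} -
      alt k T (fun j => ∫ x, (((XX b w N W x).choose j : ℕ) : ℝ) ∂P)| ≤
      (((k + T).choose k : ℕ) : ℝ) * ∫ x, (((XX b w N W x).choose (k + T) : ℕ) : ℝ) ∂P := by
  have hmS : MeasurableSet {x | XX b w N W x = k} := measurable_XX b w N W (measurableSet_singleton k)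
  have h1 : P.real {x | XX b w N W x = k} =
      ∫ x, (if XX b w N W x = k then (1 : ℝ) else 0) ∂P := by
    have : (fun x => if XX b w N W x = k then (1 : ℝ) else 0) =
        {x | XX b w N W x = k}.indicator 1 := by
      funext x
      rw [Set.indicator_apply]
      simp
    rw [this, integral_indicator_one hmS]
  have hI1 : Integrable (fun x => if XX b w N W x = k then (1 : ℝ) else 0) P := by
    have : (fun x => if XX b w N W x = k then (1 : ℝ) else 0) =
        {x | XX b w N W x = k}.indicator 1 := by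
      funext x
      rw [Set.indicator_apply]
      simp
    rw [this]
    exact (integrable_const (1 : ℝ)).indicator hmS
  have hI2 : ∀ i ∈ range (T + 1), Integrable (fun x => (-1 : ℝ) ^ i *
      (((k + i).choose k : ℕ) : ℝ) * (((XX b w N W x).choose (k + i) : ℕ) : ℝ)) P := fun i _ =>
    (integrable_ch P b w N W (k + i)).const_mul _
  have h2 : alt k T (fun j => ∫ x, (((XX b w N W x).choose j : ℕ) : ℝ) ∂P) =
      ∫ x, alt k T (fun j => (((XX b w N W x).choose j : ℕ) : ℝ)) ∂P := by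
    unfold alt
    rw [integral_finsetSum _ hI2]
    refine Finset.sum_congr rfl fun i _ => ?_
    rw [integral_const_mul]
  have hI3 : Integrable (fun x => alt k T (fun j => (((XX b w N W x).choose j : ℕ) : ℝ))) P := by
    unfold alt
    exact integrable_finsetSum _ hI2
  rw [h1, h2, ← integral_sub hI1 hI3, ← integral_const_mul]
  refine (abs_integral_le_integral_abs).trans ?_
  refine integral_mono (hI1.sub hI3).abs ((integrable_ch P b w N W (k + T)).const_mul _) fun x => ?_
  exact bonf _ k T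

lemma alt_sub (k T : ℕ) (c m : ℕ → ℝ) (e : ℝ) (h : ∀ j ≤ k + T, |c j - m j| ≤ e) :
    |alt k T c - alt k T m| ≤ (∑ i ∈ range (T + 1), (((k + i).choose k : ℕ) : ℝ)) * e := by
  unfold alt
  rw [← Finset.sum_sub_distrib, Finset.sum_mul]
  refine (abs_sum_le_sum_abs _ _).trans (Finset.sum_le_sum fun i hi => ?_)
  rw [← mul_sub, abs_mul, abs_mul, abs_pow, abs_neg, abs_one, one_pow, one_mul, Nat.abs_cast]
  refine mul_le_mul_of_nonneg_left (h _ ?_) (Nat.cast_nonneg _)
  have := mem_range.1 hi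
  omega

/-- assembly for one measure -/
lemma final_bound (P : Measure ℝ) [IsProbabilityMeasure P] (b w N : ℕ) (W : Finset ℕ) (k T : ℕ)
    (m R e : ℝ) (hm : 0 ≤ m) (hmR : m ≤ R)
    (h : ∀ j ≤ k + T, |∫ x, (((XX b w N W x).choose j : ℕ) : ℝ) ∂P - m ^ j / j.factorial| ≤ e) :
    |P.real {x | XX b w N W x = k} - exp (-m) * m ^ k / k.factorial| ≤
      R ^ k / k.factorial * (R ^ T / T.factorial) +
      R ^ k / k.factorial * (exp R - ∑ i ∈ range (T + 1), R ^ i / i.factorial) +
      ((∑ i ∈ range (T + 1), (((k + i).choose k : ℕ) : ℝ)) + (((k + T).choose k : ℕ) : ℝ)) * e := by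
  have h1 := bonf_int P b w N W k T
  have h2 := alt_sub k T (fun j => ∫ x, (((XX b w N W x).choose j : ℕ) : ℝ) ∂P)
    (fun j => m ^ j / j.factorial) e h
  rw [alt_pois] at h2
  have h3 := exp_tail m hm (T + 1)
  have h4 := tail_mono m R hm hmR (T + 1)
  have h5 : ∫ x, (((XX b w N W x).choose (k + T) : ℕ) : ℝ) ∂P ≤
      m ^ (k + T) / (k + T).factorial + e := by
    have := (abs_le.1 (h (k + T) le_rfl)).2
    linarith
  have h6 : (((k + T).choose k : ℕ) : ℝ) * ∫ x, (((XX b w N W x).choose (k + T) : ℕ) : ℝ) ∂P ≤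
      m ^ k / k.factorial * (m ^ T / T.factorial) + (((k + T).choose k : ℕ) : ℝ) * e := by
    rw [← fact_split, ← mul_add]
    exact mul_le_mul_of_nonneg_left h5 (Nat.cast_nonneg _)
  have h7 : m ^ k / k.factorial * (m ^ T / T.factorial) ≤
      R ^ k / k.factorial * (R ^ T / T.factorial) := by
    have hR0 : 0 ≤ R := hm.trans hmR
    have h71 : m ^ k / k.factorial ≤ R ^ k / k.factorial := by gcongr
    have h72 : m ^ T / T.factorial ≤ R ^ T / T.factorial := by gcongr
    exact mul_le_mul h71 h72 (by positivity) (by positivity)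
  have hR0 : 0 ≤ R := hm.trans hmR
  have h8 : 0 ≤ exp m - ∑ i ∈ range (T + 1), m ^ i / i.factorial := (abs_nonneg _).trans h3
  have h9 : |m ^ k / k.factorial * ∑ i ∈ range (T + 1), (-m) ^ i / i.factorial -
      exp (-m) * m ^ k / k.factorial| ≤
      R ^ k / k.factorial * (exp R - ∑ i ∈ range (T + 1), R ^ i / i.factorial) := by
    have e1 : m ^ k / k.factorial * ∑ i ∈ range (T + 1), (-m) ^ i / i.factorial -
      exp (-m) * m ^ k / k.factorial = -(m ^ k / k.factorial *
        (exp (-m) - ∑ i ∈ range (T + 1), (-m) ^ i / i.factorial)) := by ring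
    rw [e1, abs_neg, abs_mul, abs_of_nonneg (by positivity : (0 : ℝ) ≤ m ^ k / k.factorial)]
    refine mul_le_mul ?_ (h3.trans h4) (abs_nonneg _) (by positivity)
    gcongr
  set p := P.real {x | XX b w N W x = k}
  set a := alt k T (fun j => ∫ x, (((XX b w N W x).choose j : ℕ) : ℝ) ∂P)
  set a' := m ^ k / k.factorial * ∑ i ∈ range (T + 1), (-m) ^ i / i.factorial
  set v := exp (-m) * m ^ k / k.factorial
  have h10 : |p - v| ≤ |p - a| + |a - a'| + |a' - v| := by
    have e1 : p - v = (p - a) + (a - a') + (a' - v) := by ring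
    rw [e1]
    exact abs_add_three _ _ _
  rw [add_mul]
  linarith

/-- C3 from TR and L5 -/
theorem c3_of (h1 : St_TR) (h2 : St_L5) : St_C3 := by
  intro B A S hS r k Λ ε hΛ hε
  set R : ℝ := r * Λ with hR
  have hR0 : 0 ≤ R := by positivity
  obtain ⟨T, hT1, hT2⟩ := choose_T k R (ε / 4) hR0 (by positivity)
  set G : ℝ := (∑ i ∈ range (T + 1), (((k + i).choose k : ℕ) : ℝ)) + (((k + T).choose k : ℕ) : ℝ)
    with hG
  have hG0 : 0 < G := by
    have h3 : 0 < (((k + T).choose k : ℕ) : ℝ) := by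
      exact_mod_cast Nat.choose_pos (Nat.le_add_right k T)
    have h4 : 0 ≤ ∑ i ∈ range (T + 1), (((k + i).choose k : ℕ) : ℝ) :=
      Finset.sum_nonneg fun i _ => Nat.cast_nonneg _
    rw [hG]; linarith
  set e : ℝ := ε / (2 * G) with he
  have he0 : 0 < e := by positivity
  -- choices from L5 and TR
  choose w0 hw0 using fun j : ℕ => h2 r j Λ (e / 2) hΛ (by positivity)
  choose δ hδ M1 hM1 using fun j : ℕ => h1 B A S hS j 2
  have hM2 : ∀ j : ℕ, ∃ M2 : ℕ, ∀ M : ℕ, M2 ≤ M → (M : ℝ) ^ (-(δ j)) ≤ e / 2 := by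
    intro j
    have h3 : Filter.Tendsto (fun M : ℕ => (M : ℝ) ^ (-(δ j))) Filter.atTop (nhds 0) :=
      (tendsto_rpow_neg_atTop (hδ j)).comp tendsto_natCast_atTop_atTop
    have h4 := h3.eventually (gt_mem_nhds (by positivity : 0 < e / 2))
    obtain ⟨M2, hM2⟩ := Filter.eventually_atTop.1 h4
    exact ⟨M2, fun M hM => (hM2 M hM).le⟩
  choose M2 hM2 using hM2
  have hM3 : ∃ M3 : ℕ, ∀ M : ℕ, M3 ≤ M → Λ * A ≤ log M ∧ 0 ≤ log M := by
    have h3 : Filter.Tendsto (fun M : ℕ => log (M : ℝ)) Filter.atTop Filter.atTop :=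
      tendsto_log_atTop.comp tendsto_natCast_atTop_atTop
    obtain ⟨M3, hM3⟩ := Filter.eventually_atTop.1
      ((h3.eventually_ge_atTop (Λ * A)).and (h3.eventually_ge_atTop 0))
    exact ⟨M3, hM3⟩
  obtain ⟨M3, hM3⟩ := hM3
  set w1 := (range (k + T + 1)).sup w0 with hw1
  set N0 : ℕ := ⌈Λ * (B : ℝ) ^ w1⌉₊ + 1 with hN0
  refine ⟨N0, (range (k + T + 1)).sup M1 + (range (k + T + 1)).sup M2 + M3 + 1, ?_⟩
  intro M hM P hP b w N W hb2 hbB hN hNA hNΛ hbΛ hW hWc hNo
  have hPp : IsProbabilityMeasure P := hS.1 M (by omega) P hP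
  have hb0 : (2 : ℝ) ≤ b := by exact_mod_cast hb2
  have hbw0 : (0 : ℝ) < (b : ℝ) ^ w := by positivity
  have hB1 : (1 : ℝ) ≤ B := by
    have : 1 ≤ B := by omega
    exact_mod_cast this
  -- `w` is large
  have hw : w1 ≤ w := by
    by_contra hc
    push Not at hc
    have h3 : (b : ℝ) ^ w ≤ (B : ℝ) ^ w1 := by
      calc (b : ℝ) ^ w ≤ (B : ℝ) ^ w := pow_le_pow_left₀ (by positivity) (by exact_mod_cast hbB) w
        _ ≤ (B : ℝ) ^ w1 := pow_le_pow_right₀ hB1 hc.le
    have h4 : (N : ℝ) ≤ Λ * (B : ℝ) ^ w1 := hNΛ.trans (mul_le_mul_of_nonneg_left h3 hΛ.le)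
    have h5 : Λ * (B : ℝ) ^ w1 < N0 := by
      rw [hN0]
      push_cast
      have := Nat.le_ceil (Λ * (B : ℝ) ^ w1)
      linarith
    have h6 : (N0 : ℝ) ≤ N := by exact_mod_cast hN
    linarith
  -- `b ^ w` is small
  have hbD : (b : ℝ) ^ w ≤ (log M) ^ 2 := by
    obtain ⟨h3, h4⟩ := hM3 M (by omega)
    calc (b : ℝ) ^ w ≤ Λ * N := hbΛ
      _ ≤ Λ * (A * log M) := mul_le_mul_of_nonneg_left hNA hΛ.le
      _ = (Λ * A) * log M := by ring
      _ ≤ log M * log M := mul_le_mul_of_nonneg_right h3 h4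
      _ = (log M) ^ 2 := by ring
  set m : ℝ := r * (N / (b : ℝ) ^ w) with hm
  have hm0 : 0 ≤ m := by positivity
  have hmR : m ≤ R := by
    rw [hm, hR]
    refine mul_le_mul_of_nonneg_left ?_ (Nat.cast_nonneg _)
    rw [div_le_iff₀ hbw0]
    exact hNΛ
  have hmom : ∀ j ≤ k + T,
      |∫ x, (((XX b w N W x).choose j : ℕ) : ℝ) ∂P - m ^ j / j.factorial| ≤ e := by
    intro j hj
    have hjr : j ∈ range (k + T + 1) := mem_range.2 (by omega)
    have h3 : w0 j ≤ w := (Finset.le_sup (f := w0) hjr).trans hw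
    have h4 : |∫ x, (((XX b w N W x).choose j : ℕ) : ℝ) ∂Leb - m ^ j / j.factorial| ≤ e / 2 :=
      hw0 j b w N W hb2 h3 hNΛ hW hWc hNo
    have h5 : M1 j ≤ M := by
      have := Finset.le_sup (f := M1) hjr
      omega
    have h6 : M2 j ≤ M := by
      have := Finset.le_sup (f := M2) hjr
      omega
    have h7 := hM1 j M h5 P hP b w N (by omega) hbB hNA hbD (FF W j) (FF_le W j)
    simp only [sum_FF] at h7
    rw [integral_const_mul, integral_const_mul, ← mul_sub, abs_mul, Nat.abs_cast] at h7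
    have h8 : (1 : ℝ) ≤ j.factorial := by exact_mod_cast Nat.one_le_iff_ne_zero.2 (Nat.factorial_ne_zero j)
    have h9 : |∫ x, (((XX b w N W x).choose j : ℕ) : ℝ) ∂P -
        ∫ x, (((XX b w N W x).choose j : ℕ) : ℝ) ∂Leb| ≤ e / 2 := by
      refine le_trans ?_ (h7.trans (hM2 j M h6))
      exact le_mul_of_one_le_left (abs_nonneg _) h8
    calc _ = |(∫ x, (((XX b w N W x).choose j : ℕ) : ℝ) ∂P -
        ∫ x, (((XX b w N W x).choose j : ℕ) : ℝ) ∂Leb) +
          (∫ x, (((XX b w N W x).choose j : ℕ) : ℝ) ∂Leb - m ^ j / j.factorial)| := by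
          congr 1; ring
      _ ≤ e / 2 + e / 2 := (abs_add_le _ _).trans (add_le_add h9 h4)
      _ = e := by ring
  have h10 := final_bound P b w N W k T m R e hm0 hmR hmom
  refine h10.trans ?_
  have h11 : G * e = ε / 2 := by
    rw [he]; field_simp
  rw [← hG, h11]
  linarith

end Pool.Agent.N79.FSC3
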